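import Mathlib

/-!
Prescribed radial limits for power series with bounded coefficients.

Outline.  (1) On the closed disc minus a thin sector around the positive axis, `1/(1 - t z)` is a
uniform limit of polynomials for every `t ≥ 0`.  Averaging `1 - 1/(1 - 2^j z)` over many `j` gives a
polynomial `Φ` with `Φ(0) = 0`, `|Φ| ≤ 3` on the radii outside the thin sector and `Φ` close to `1`
at the endpoints of these radii.
(2) For a bounded measurable `D` and a measurable piece `A` of the circle we approximate `D 1_A` by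
a trigonometric polynomial `q` in measure; the polynomial `q(z) Φ(τ z^N)` with `N` large is close to
`D 1_A` outside a small set, has bounded radial paths there and its coefficients are controlled by
the integral of `|D| 1_A`.  Cutting the circle in many pieces and using separated frequencies makes
all the coefficients as small as we like.
(3) Iterating, with truncations of `g` as successive targets, gives the function `f`.
(4) Null sets for arc length are null for the one dimensional Hausdorff measure.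
-/

set_option autoImplicit false

open MeasureTheory Filter Topology Polynomial

namespace Pool.Agent.Results.MP_2e8a17_an.RadialLimits

section Runge

/-- closed unit disc minus a thin open sector around the positive real axis -/
def KK (c : ℝ) : Set ℂ := {z : ℂ | ‖z‖ ≤ 1 ∧ z.re ≤ c * ‖z‖}

lemma isCompact_KK (c : ℝ) : IsCompact (KK c) := by
  apply Metric.isCompact_of_isClosed_isBounded
  · unfold KK
    apply IsClosed.inter
    · exact isClosed_le continuous_norm continuous_const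
    · exact isClosed_le Complex.continuous_re (by fun_prop)
  · refine (Metric.isBounded_closedBall (x := (0 : ℂ)) (r := 1)).subset ?_
    intro z hz
    simpa using hz.1

lemma lower_bound {c : ℝ} (hc0 : 0 ≤ c) (hc : c < 1) {z : ℂ} (hz : z ∈ KK c) {t : ℝ}
    (ht : 0 ≤ t) : (1 - c) * max 1 (t * ‖z‖) ≤ ‖1 - (t : ℂ) * z‖ := by
  have h1 : (1 - c) ^ 2 * (1 + (t * ‖z‖) ^ 2) ≤ ‖1 - (t : ℂ) * z‖ ^ 2 := by
    rw [Complex.sq_norm, Complex.normSq_apply]
    have h2 : ‖z‖ ^ 2 = z.re ^ 2 + z.im ^ 2 := by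
      rw [Complex.sq_norm, Complex.normSq_apply]; ring
    have h3 : z.re ≤ c * ‖z‖ := hz.2
    have h4 : t * z.re ≤ t * (c * ‖z‖) := mul_le_mul_of_nonneg_left h3 ht
    have e : (1 - (t : ℂ) * z).re * (1 - (t : ℂ) * z).re + (1 - (t : ℂ) * z).im * (1 - (t : ℂ) * z).im
        = 1 - 2 * (t * z.re) + t ^ 2 * ‖z‖ ^ 2 := by
      rw [h2]; simp; ring
    rw [e]
    have h5 : 2 * (t * ‖z‖) ≤ 1 + (t * ‖z‖) ^ 2 := by nlinarith [sq_nonneg (t * ‖z‖ - 1)]
    have h6 : (1 - c) * (1 + (t * ‖z‖) ^ 2) ≤ 1 - 2 * (t * z.re) + t ^ 2 * ‖z‖ ^ 2 := by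
      nlinarith [mul_le_mul_of_nonneg_left h5 hc0]
    refine le_trans ?_ h6
    have : (1 - c) ^ 2 ≤ 1 - c := by nlinarith
    gcongr
  have h7 : max 1 (t * ‖z‖) ^ 2 ≤ 1 + (t * ‖z‖) ^ 2 := by
    rcases max_choice 1 (t * ‖z‖) with h | h <;> rw [h] <;> nlinarith [sq_nonneg (t * ‖z‖)]
  have h8 : ((1 - c) * max 1 (t * ‖z‖)) ^ 2 ≤ ‖1 - (t : ℂ) * z‖ ^ 2 := by
    rw [mul_pow]
    refine le_trans ?_ h1
    gcongr
  exact (sq_le_sq₀ (by have : 0 ≤ 1 - c := by linarith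
                       positivity) (norm_nonneg _)).1 h8

/-- `1 / (1 - t z)` is a uniform limit of polynomials on `KK c`. -/
lemma approx_inv {c : ℝ} (hc0 : 0 ≤ c) (hc : c < 1) {t : ℝ} (ht : 0 ≤ t) {ε : ℝ} (hε : 0 < ε) :
    ∃ p : ℂ[X], ∀ z ∈ KK c, ‖p.eval z - (1 - (t : ℂ) * z)⁻¹‖ ≤ ε := by
  have : CompactSpace (KK c) := isCompact_iff_compactSpace.1 (isCompact_KK c)
  set A := (polynomialFunctions (KK c)).topologicalClosure with hA
  have : CompleteSpace A := (Subalgebra.isClosed_topologicalClosure _).completeSpace_coe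
  have hX : (X : ℂ[X]).toContinuousMapOn (KK c) ∈ A := by
    apply Subalgebra.le_topologicalClosure
    exact ⟨X, by simp, rfl⟩
  set x : A := ⟨(X : ℂ[X]).toContinuousMapOn (KK c), hX⟩ with hx
  have hs : 0 < 1 - c := by linarith
  have hinv : ∀ (l : ℝ), 0 ≤ l → ∀ v : Aˣ, (v : A) = 1 - (l : ℂ) • x →
      ∀ z : KK c, ((v⁻¹ : Aˣ) : A).1 z = (1 - (l : ℂ) * (z : ℂ))⁻¹ := by
    intro l hl v hv z
    have h1 : (v : A) * ((v⁻¹ : Aˣ) : A) = 1 := v.mul_inv
    rw [hv] at h1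
    have h2 := congrArg (fun a : A => a.1 z) h1
    simp [hx] at h2
    exact eq_inv_of_mul_eq_one_right h2
  have hnorm : ∀ (l : ℝ), 0 ≤ l → ∀ v : Aˣ, (v : A) = 1 - (l : ℂ) • x →
      ‖((v⁻¹ : Aˣ) : A)‖ ≤ 1 / (1 - c) := by
    intro l hl v hv
    change ‖((v⁻¹ : Aˣ) : A).1‖ ≤ 1 / (1 - c)
    rw [ContinuousMap.norm_le _ (by positivity)]
    intro z
    rw [hinv l hl v hv z, norm_inv, ← one_div]
    have h := lower_bound hc0 hc z.2 hl
    have h2 : (1 - c) * 1 ≤ (1 - c) * max 1 (l * ‖(z : ℂ)‖) := by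
      gcongr; exact le_max_left _ _
    gcongr
    linarith
  have hxn : ‖x‖ ≤ 1 := by
    change ‖x.1‖ ≤ 1
    rw [ContinuousMap.norm_le _ (by positivity)]
    intro z
    simpa [hx] using z.2.1
  have hstep : ∀ (l d : ℝ), 0 ≤ l → 0 ≤ d → d < 1 - c → IsUnit (1 - (l : ℂ) • x) →
      IsUnit (1 - ((l + d : ℝ) : ℂ) • x) := by
    intro l d hl hd hdc ⟨v, hv⟩
    have h1 := hnorm l hl v hv
    have h2 : ‖((d : ℂ) • x) * ((v⁻¹ : Aˣ) : A)‖ < 1 := by
      calc _ ≤ ‖((d : ℂ) • x)‖ * ‖((v⁻¹ : Aˣ) : A)‖ := norm_mul_le _ _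
        _ ≤ d * (1 / (1 - c)) := by
          gcongr
          rw [norm_smul, Complex.norm_real, Real.norm_of_nonneg hd]
          exact mul_le_of_le_one_right hd hxn
        _ < 1 := by rw [mul_one_div, div_lt_one hs]; exact hdc
    have h3 : 1 - ((l + d : ℝ) : ℂ) • x = (v : A) * (1 - ((d : ℂ) • x) * ((v⁻¹ : Aˣ) : A)) := by
      rw [mul_sub, mul_one, mul_comm ((d : ℂ) • x), ← mul_assoc, v.mul_inv, one_mul, hv]
      push_cast
      rw [add_smul]; abel
    rw [h3]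
    exact v.isUnit.mul (Units.oneSub _ h2).isUnit
  have hall : ∀ (d : ℝ), 0 ≤ d → d < 1 - c → ∀ k : ℕ, IsUnit (1 - (((k : ℝ) * d : ℝ) : ℂ) • x) := by
    intro d hd hdc k
    induction k with
    | zero => simp
    | succ k ih =>
      have := hstep (k * d) d (by positivity) hd hdc ih
      convert this using 4
      push_cast; ring
  obtain ⟨k, hk⟩ := exists_nat_gt (t / (1 - c))
  have hk0 : (0 : ℝ) < k := lt_of_le_of_lt (by positivity) hk
  have hu := hall (t / k) (by positivity) (by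
    rw [div_lt_iff₀ hs] at hk
    rw [div_lt_iff₀ hk0]; linarith) k
  rw [mul_div_cancel₀ _ hk0.ne'] at hu
  obtain ⟨v, hv⟩ := hu
  have hmem : ((v⁻¹ : Aˣ) : A).1 ∈ closure (polynomialFunctions (KK c) : Set C(KK c, ℂ)) := by
    exact ((v⁻¹ : Aˣ) : A).2
  rw [Metric.mem_closure_iff] at hmem
  obtain ⟨b, hb, hd⟩ := hmem ε hε
  obtain ⟨p, -, rfl⟩ := hb
  refine ⟨p, fun z hz => ?_⟩
  rw [dist_comm, dist_eq_norm, ContinuousMap.norm_lt_iff _ hε] at hd
  have := hd ⟨z, hz⟩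
  rw [ContinuousMap.sub_apply, hinv t ht v hv ⟨z, hz⟩] at this
  exact this.le

/-- dyadic sum bound -/
lemma dyadic_sum (J : ℕ) : ∀ x : ℝ, 0 < x →
    ∑ j ∈ Finset.range J, min (2 ^ j * x) (2 ^ j * x)⁻¹ ≤ (if x < 1 then 4 - x else 2 / x) := by
  induction J with
  | zero =>
    intro x hx
    simp
    split_ifs with h
    · linarith
    · positivity
  | succ J ih =>
    intro x hx
    rw [Finset.sum_range_succ']
    have h1 : ∑ j ∈ Finset.range J, min ((2 : ℝ) ^ (j + 1) * x) (2 ^ (j + 1) * x)⁻¹ =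
        ∑ j ∈ Finset.range J, min (2 ^ j * (2 * x)) (2 ^ j * (2 * x))⁻¹ := by
      refine Finset.sum_congr rfl (fun j _ => ?_)
      rw [pow_succ, mul_assoc]
    rw [h1]
    have h2 := ih (2 * x) (by positivity)
    simp only [pow_zero, one_mul]
    split_ifs with h
    · have h3 : min x x⁻¹ ≤ x := min_le_left _ _
      split_ifs at h2 with h4
      · linarith
      · have h5 : 2 / (2 * x) = x⁻¹ := by field_simp
        rw [h5] at h2
        have h6 : x⁻¹ ≤ 2 := by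
          rw [inv_le_comm₀ hx (by norm_num)]; linarith
        have h7 : x⁻¹ ≤ 4 - 2 * x := by
          rw [inv_le_iff_one_le_mul₀ hx]
          nlinarith
        linarith
    · have h3 : min x x⁻¹ ≤ x⁻¹ := min_le_right _ _
      rw [if_neg (by linarith)] at h2
      have h5 : 2 / (2 * x) = x⁻¹ := by field_simp
      rw [h5] at h2
      have h6 : 2 / x = x⁻¹ + x⁻¹ := by field_simp; norm_num
      linarith

lemma dyadic_sum' (J : ℕ) (x : ℝ) (hx : 0 < x) :
    ∑ j ∈ Finset.range J, min (2 ^ j * x) (2 ^ j * x)⁻¹ ≤ 4 := by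
  refine (dyadic_sum J x hx).trans ?_
  split_ifs with h
  · linarith
  · rw [div_le_iff₀ hx]; linarith

/-- Key polynomial: small at the centre, close to `1` on most of the circle, with bounded
radial paths. -/
lemma key_poly {c : ℝ} (hc0 : 0 ≤ c) (hc : c < 1) {ε : ℝ} (hε : 0 < ε) :
    ∃ p : ℂ[X], p.coeff 0 = 0 ∧ (∀ z ∈ KK c, ‖p.eval z‖ ≤ 3) ∧
      ∀ z ∈ KK c, ‖z‖ = 1 → ‖p.eval z - 1‖ ≤ ε := by
  set s := 1 - c with hs
  have hs0 : 0 < s := by linarith
  set ε' := min ε 1 with hε'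
  have hε'0 : 0 < ε' := lt_min hε one_pos
  obtain ⟨J, hJ⟩ := exists_nat_gt (8 / (s * ε'))
  have hJ0 : (0 : ℝ) < J := lt_of_le_of_lt (by positivity) hJ
  rw [div_lt_iff₀ (by positivity)] at hJ
  -- polynomials approximating the inverses
  have hex : ∀ j : ℕ, ∃ p : ℂ[X], ∀ z ∈ KK c,
      ‖p.eval z - (1 - (((2 : ℝ) ^ (j + 1) : ℝ) : ℂ) * z)⁻¹‖ ≤ ε' / 8 := fun j =>
    approx_inv hc0 hc (by positivity) (by positivity)
  choose P hP using hex
  set Q : ℂ[X] := C ((J : ℂ)⁻¹) * ∑ j ∈ Finset.range J, (1 - P j) with hQ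
  set ψ : ℂ → ℂ := fun z => (J : ℂ)⁻¹ * ∑ j ∈ Finset.range J,
    (1 - (1 - (((2 : ℝ) ^ (j + 1) : ℝ) : ℂ) * z)⁻¹) with hψ
  have hJc : ‖(J : ℂ)⁻¹‖ = (J : ℝ)⁻¹ := by simp
  have hQψ : ∀ z ∈ KK c, ‖Q.eval z - ψ z‖ ≤ ε' / 8 := by
    intro z hz
    have e : Q.eval z - ψ z = (J : ℂ)⁻¹ * ∑ j ∈ Finset.range J,
        ((1 - (((2 : ℝ) ^ (j + 1) : ℝ) : ℂ) * z)⁻¹ - (P j).eval z) := by
      simp only [hQ, hψ, eval_mul, eval_C, eval_finsetSum, eval_sub, eval_one]
      rw [← mul_sub, ← Finset.sum_sub_distrib]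
      congr 1
      refine Finset.sum_congr rfl (fun j _ => by ring)
    rw [e, norm_mul, hJc]
    calc _ ≤ (J : ℝ)⁻¹ * ∑ j ∈ Finset.range J, (ε' / 8) := by
          gcongr
          refine (norm_sum_le _ _).trans (Finset.sum_le_sum (fun j _ => ?_))
          rw [norm_sub_rev]; exact hP j z hz
      _ = ε' / 8 := by simp; field_simp
  have h0K : (0 : ℂ) ∈ KK c := by simp [KK]
  have hψ0 : ψ 0 = 0 := by simp [hψ]
  -- bounds on ψ
  have hw : ∀ z ∈ KK c, ∀ j : ℕ, z ≠ 0 →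
      ‖(1 - (((2 : ℝ) ^ (j + 1) : ℝ) : ℂ) * z)⁻¹‖ ≤ s⁻¹ * (2 ^ j * (2 * ‖z‖))⁻¹ ∧
      ‖1 - (1 - (((2 : ℝ) ^ (j + 1) : ℝ) : ℂ) * z)⁻¹‖ ≤
        1 + s⁻¹ * min (2 ^ j * (2 * ‖z‖)) (2 ^ j * (2 * ‖z‖))⁻¹ := by
    intro z hz j hz0
    have hzn : 0 < ‖z‖ := norm_pos_iff.2 hz0
    set t : ℝ := 2 ^ (j + 1) with ht
    have ht0 : 0 < t := by positivity
    have htz : 2 ^ j * (2 * ‖z‖) = t * ‖z‖ := by rw [ht]; ring
    rw [htz]
    have hlb := lower_bound hc0 hc hz ht0.le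
    rw [← hs] at hlb
    have hpos : 0 < ‖1 - (t : ℂ) * z‖ := lt_of_lt_of_le (by positivity) hlb
    have hne : (1 - (t : ℂ) * z) ≠ 0 := norm_pos_iff.1 hpos
    have hb1 : ‖(1 - (t : ℂ) * z)⁻¹‖ ≤ s⁻¹ * (t * ‖z‖)⁻¹ := by
      rw [norm_inv, ← mul_inv]
      have : s * (t * ‖z‖) ≤ ‖1 - (t : ℂ) * z‖ :=
        le_trans (by gcongr; exact le_max_right _ _) hlb
      gcongr
    refine ⟨hb1, ?_⟩
    rcases le_total (t * ‖z‖) 1 with h1 | h1
    · have h2 : min (t * ‖z‖) (t * ‖z‖)⁻¹ = t * ‖z‖ := by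
        apply min_eq_left
        exact h1.trans ((one_le_inv₀ (by positivity)).2 h1)
      rw [h2]
      have e : 1 - (1 - (t : ℂ) * z)⁻¹ = -((t : ℂ) * z) * (1 - (t : ℂ) * z)⁻¹ := by
        field_simp
        ring
      rw [e, norm_mul, norm_neg, norm_mul, Complex.norm_real, Real.norm_of_nonneg ht0.le, norm_inv]
      have h3 : ‖1 - (t : ℂ) * z‖⁻¹ ≤ s⁻¹ := by
        have : s * 1 ≤ ‖1 - (t : ℂ) * z‖ :=
          le_trans (by gcongr; exact le_max_left _ _) hlb
        gcongr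
        linarith
      calc t * ‖z‖ * ‖1 - (t : ℂ) * z‖⁻¹ ≤ t * ‖z‖ * s⁻¹ := by gcongr
        _ ≤ 1 + s⁻¹ * (t * ‖z‖) := by linarith
    · have h2 : min (t * ‖z‖) (t * ‖z‖)⁻¹ = (t * ‖z‖)⁻¹ := by
        apply min_eq_right
        exact (inv_le_one_of_one_le₀ h1).trans h1
      rw [h2]
      calc _ ≤ ‖(1 : ℂ)‖ + ‖(1 - (t : ℂ) * z)⁻¹‖ := norm_sub_le _ _
        _ ≤ _ := by rw [norm_one]; linarith
  have hψb : ∀ z ∈ KK c, ‖ψ z‖ ≤ 1 + 4 / (s * J) := by
    intro z hz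
    rcases eq_or_ne z 0 with rfl | hz0
    · rw [hψ0, norm_zero]; positivity
    have hzn : 0 < ‖z‖ := norm_pos_iff.2 hz0
    simp only [hψ]
    rw [norm_mul, hJc]
    calc _ ≤ (J : ℝ)⁻¹ * ∑ j ∈ Finset.range J,
          (1 + s⁻¹ * min (2 ^ j * (2 * ‖z‖)) (2 ^ j * (2 * ‖z‖))⁻¹) := by
          gcongr
          exact (norm_sum_le _ _).trans (Finset.sum_le_sum (fun j _ => (hw z hz j hz0).2))
      _ ≤ (J : ℝ)⁻¹ * (J + s⁻¹ * 4) := by
          rw [Finset.sum_add_distrib, ← Finset.mul_sum]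
          have := dyadic_sum' J (2 * ‖z‖) (by positivity)
          simp only [Finset.sum_const, Finset.card_range, nsmul_eq_mul, mul_one]
          gcongr
      _ = _ := by field_simp
  have hψ1 : ∀ z ∈ KK c, ‖z‖ = 1 → ‖ψ z - 1‖ ≤ 4 / (s * J) := by
    intro z hz hz1
    have hz0 : z ≠ 0 := by rintro rfl; simp at hz1
    have e : ψ z - 1 = (J : ℂ)⁻¹ * ∑ j ∈ Finset.range J,
        (-(1 - (((2 : ℝ) ^ (j + 1) : ℝ) : ℂ) * z)⁻¹) := by
      simp only [hψ]
      rw [Finset.sum_neg_distrib, Finset.sum_sub_distrib]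
      have : (J : ℂ) ≠ 0 := by exact_mod_cast hJ0.ne'
      simp only [Finset.sum_const, Finset.card_range, nsmul_eq_mul, mul_one]
      rw [mul_sub, inv_mul_cancel₀ this, mul_neg]
      abel
    rw [e, norm_mul, hJc]
    calc _ ≤ (J : ℝ)⁻¹ * ∑ j ∈ Finset.range J, (s⁻¹ * (2 ^ j * (2 * ‖z‖))⁻¹) := by
          gcongr
          refine (norm_sum_le _ _).trans (Finset.sum_le_sum (fun j _ => ?_))
          rw [norm_neg]; exact (hw z hz j hz0).1
      _ ≤ (J : ℝ)⁻¹ * (s⁻¹ * 4) := by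
          rw [← Finset.mul_sum]
          have := dyadic_sum' J 2 (by positivity)
          gcongr
          refine le_trans (Finset.sum_le_sum (fun j _ => ?_)) this
          rw [hz1, mul_one]
          apply le_min _ le_rfl
          have h2 : (1 : ℝ) ≤ 2 ^ j * 2 := by
            have : (1 : ℝ) ≤ 2 ^ j := one_le_pow₀ (by norm_num)
            linarith
          exact (inv_le_one_of_one_le₀ h2).trans h2
      _ = _ := by field_simp
  have hsJ : 4 / (s * J) ≤ ε' / 2 := by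
    rw [div_le_iff₀ (by positivity)]; nlinarith
  have hε'1 : ε' ≤ 1 := min_le_right _ _
  have hε'ε : ε' ≤ ε := min_le_left _ _
  have hQ0 : ‖Q.coeff 0‖ ≤ ε' / 8 := by
    have := hQψ 0 h0K
    rwa [hψ0, sub_zero, ← coeff_zero_eq_eval_zero] at this
  refine ⟨Q - C (Q.coeff 0), by simp, fun z hz => ?_, fun z hz hz1 => ?_⟩
  · rw [eval_sub, eval_C]
    have h1 := hQψ z hz
    have h2 := hψb z hz
    have h3 : ‖Q.eval z‖ ≤ ‖Q.eval z - ψ z‖ + ‖ψ z‖ := by
      have := norm_add_le (Q.eval z - ψ z) (ψ z)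
      simpa using this
    have h4 := norm_sub_le (Q.eval z) (Q.coeff 0)
    linarith
  · rw [eval_sub, eval_C]
    have h1 := hQψ z hz
    have h2 := hψ1 z hz hz1
    have e : Q.eval z - Q.coeff 0 - 1 = (Q.eval z - ψ z) + (ψ z - 1) - Q.coeff 0 := by ring
    rw [e]
    have h3 := norm_add_le (Q.eval z - ψ z) (ψ z - 1)
    have h4 := norm_sub_le ((Q.eval z - ψ z) + (ψ z - 1)) (Q.coeff 0)
    linarith

end Runge

section Circle

/-- the additive circle `ℝ / ℤ` -/
abbrev 𝕋 := AddCircle (1 : ℝ)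

/-- the point `e^{2 π i x}` -/
noncomputable def e (x : 𝕋) : ℂ := fourier 1 x

noncomputable abbrev μ : Measure 𝕋 := AddCircle.haarAddCircle

lemma e_continuous : Continuous e := (fourier 1).continuous

lemma norm_e (x : 𝕋) : ‖e x‖ = 1 := by
  rw [e, fourier_apply]; exact Circle.norm_coe _

lemma e_add (x y : 𝕋) : e (x + y) = e x * e y := by
  simp [e, AddCircle.toCircle_add]

lemma fourier_eq (n : ℤ) (x : 𝕋) : fourier n x = e x ^ n := by
  simp [e, AddCircle.toCircle_zsmul]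

lemma e_ne_zero (x : 𝕋) : e x ≠ 0 := by
  rw [← norm_pos_iff, norm_e]; exact one_pos

lemma μ_volume : (volume : Measure 𝕋) = μ := by
  rw [AddCircle.volume_eq_smul_haarAddCircle]; simp

lemma μ_singleton_zero : μ {(0 : 𝕋)} = 0 := by
  have h := AddCircle.volume_closedBall (1 : ℝ) (x := 0) 0
  rw [Metric.closedBall_zero] at h
  rw [← μ_volume, h]
  simp

lemma cap_small {ε : ENNReal} (hε : 0 < ε) :
    ∃ c : ℝ, 0 ≤ c ∧ c < 1 ∧ μ {x | c < (e x).re} ≤ ε := by
  set F : ℕ → Set 𝕋 := fun n => {x | 1 - 1 / ((n : ℝ) + 1) < (e x).re} with hF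
  have hmeas : ∀ n, MeasurableSet (F n) := fun n =>
    (isOpen_lt continuous_const (Complex.continuous_re.comp e_continuous)).measurableSet
  have hanti : Antitone F := by
    intro m n hmn x hx
    simp only [hF, Set.mem_ofPred_eq] at hx ⊢
    refine lt_of_le_of_lt ?_ hx
    have : 1 / ((n : ℝ) + 1) ≤ 1 / ((m : ℝ) + 1) := by gcongr
    linarith
  have hI : μ (⋂ n, F n) = 0 := by
    refine measure_mono_null ?_ μ_singleton_zero
    intro x hx
    rw [Set.mem_iInter] at hx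
    have h1 : 1 ≤ (e x).re := by
      have hlim : Tendsto (fun n : ℕ => 1 - 1 / ((n : ℝ) + 1)) atTop (𝓝 (1 - 0)) :=
        tendsto_const_nhds.sub tendsto_one_div_add_atTop_nhds_zero_nat
      rw [sub_zero] at hlim
      exact le_of_tendsto hlim (Eventually.of_forall (fun n => (hx n).le))
    have h2 : e x = 1 := by
      have hn := norm_e x
      have h3 : (e x).re ^ 2 + (e x).im ^ 2 = 1 := by
        have := Complex.sq_norm (e x)
        rw [hn, Complex.normSq_apply] at this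
        nlinarith
      have h4 : (e x).im = 0 := by nlinarith [sq_nonneg (e x).im]
      have h5 : (e x).re = 1 := by
        have := Complex.abs_re_le_norm (e x)
        rw [hn] at this
        exact le_antisymm (le_of_abs_le this) h1
      exact Complex.ext (by simpa using h5) (by simpa using h4)
    have h6 : AddCircle.toCircle x = AddCircle.toCircle (0 : 𝕋) := by
      apply Circle.ext
      simpa [e] using h2
    exact AddCircle.injective_toCircle one_ne_zero h6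
  have hlim := tendsto_measure_iInter_atTop (μ := μ) (fun n => (hmeas n).nullMeasurableSet) hanti
    ⟨0, measure_ne_top _ _⟩
  rw [hI] at hlim
  obtain ⟨n, hn⟩ := (hlim.eventually (gt_mem_nhds hε)).exists
  refine ⟨1 - 1 / ((n : ℝ) + 1), ?_, ?_, hn.le⟩
  · have : 1 / ((n : ℝ) + 1) ≤ 1 := by
      rw [div_le_one (by positivity)]
      linarith [Nat.cast_nonneg (α := ℝ) n]
    linarith
  · have : 0 < 1 / ((n : ℝ) + 1) := by positivity
    linarith

/-- Choosing the rotation: some rotation makes the bad part of `A` small. -/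
lemma exists_rotation {A : Set 𝕋} (hA : MeasurableSet A) (c : ℝ) (N : ℕ) :
    ∃ τ : ℂ, ‖τ‖ = 1 ∧ μ {x | x ∈ A ∧ c < (τ * e x ^ N).re} ≤ μ A * μ {x | c < (e x).re} := by
  set B : Set (𝕋 × 𝕋) := {p | p.2 ∈ A ∧ c < (e (p.1 + N • p.2)).re} with hB
  have hBm : MeasurableSet B := by
    apply MeasurableSet.inter
    · exact measurable_snd hA
    · exact (isOpen_lt continuous_const (Complex.continuous_re.comp
        (e_continuous.comp (by fun_prop)))).measurableSet
  have h1 : (μ.prod μ) B = μ A * μ {x | c < (e x).re} := by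
    rw [Measure.prod_apply_symm hBm]
    have h2 : ∀ x, μ ((fun y => (y, x)) ⁻¹' B) = A.indicator (fun _ => μ {x | c < (e x).re}) x := by
      intro x
      by_cases hx : x ∈ A
      · rw [Set.indicator_of_mem hx]
        have : (fun y : 𝕋 => (y, x)) ⁻¹' B = (fun y => y + N • x) ⁻¹' {x | c < (e x).re} := by
          ext y; simp [hB, hx]
        rw [this, measure_preimage_add_right]
      · rw [Set.indicator_of_notMem hx]
        have : (fun y : 𝕋 => (y, x)) ⁻¹' B = ∅ := by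
          ext y; simp [hB, hx]
        rw [this]; simp
    simp_rw [h2]
    rw [lintegral_indicator_const hA, mul_comm]
  rw [Measure.prod_apply hBm] at h1
  obtain ⟨y, hy⟩ := exists_le_lintegral (μ := μ) (f := fun y => μ (Prod.mk y ⁻¹' B))
    (measurable_measure_prodMk_left hBm).aemeasurable
  rw [h1] at hy
  refine ⟨e y, norm_e y, le_trans (le_of_eq ?_) hy⟩
  congr 1
  ext x
  have : e (y + N • x) = e y * e x ^ N := by
    rw [e_add]; congr 1
    simp [e, AddCircle.toCircle_nsmul]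
  simp [hB, this]

/-- Trigonometric approximation in measure, with small coefficients. -/
lemma trig_approx (f : 𝕋 → ℂ) (hf : Measurable f) (M : ℝ) (hM : ∀ x, ‖f x‖ ≤ M) (C0 : ℝ)
    (hC0 : ∫ x, ‖f x‖ ∂μ ≤ C0) {δ' : ℝ} (hδ' : 0 < δ') {δ : ENNReal} (hδ : 0 < δ) :
    ∃ (L : ℕ) (a : ℤ → ℂ), (∀ l, ‖a l‖ ≤ C0) ∧
      μ {x | δ' ≤ ‖∑ l ∈ Finset.Icc (-(L : ℤ)) L, a l * e x ^ l - f x‖} ≤ δ := by
  have hmem : MemLp f 2 μ := MemLp.of_bound hf.aestronglyMeasurable M (Eventually.of_forall hM)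
  set F : Lp ℂ 2 μ := hmem.toLp f with hF
  have hFf : F =ᵐ[μ] f := hmem.coeFn_toLp
  have hsum := hasSum_fourier_series_L2 F
  have hmeas := tendstoInMeasure_of_tendsto_Lp hsum (ENNReal.ofReal δ') (by simpa using hδ')
  have hev := hmeas.eventually (gt_mem_nhds hδ)
  obtain ⟨s0, hs0⟩ := eventually_atTop.1 hev
  -- a symmetric interval containing s0
  obtain ⟨L, hL⟩ : ∃ L : ℕ, s0 ⊆ Finset.Icc (-(L : ℤ)) L := by
    refine ⟨∑ l ∈ s0, l.natAbs, fun l hl => ?_⟩
    have h1 : l.natAbs ≤ ∑ l ∈ s0, l.natAbs :=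
      Finset.single_le_sum (f := fun l : ℤ => l.natAbs) (fun _ _ => Nat.zero_le _) hl
    rw [Finset.mem_Icc]
    constructor <;> omega
  refine ⟨L, fun l => fourierCoeff F l, fun l => ?_, ?_⟩
  · unfold fourierCoeff
    refine (norm_integral_le_integral_norm _).trans (le_trans (le_of_eq ?_) hC0)
    apply integral_congr_ae
    filter_upwards [hFf] with x hx
    rw [norm_smul, hx, fourier_apply, Circle.norm_coe, one_mul]
  · refine le_trans (measure_mono_ae ?_) (hs0 _ hL).le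
    have h1 := Lp.coeFn_finsetSum (Finset.Icc (-(L : ℤ)) L)
      (fun i => fourierCoeff F i • fourierLp (T := 1) 2 i)
    have h2 : ∀ᵐ x ∂μ, ∀ i : ℤ, (fourierCoeff F i • fourierLp (T := 1) 2 i : Lp ℂ 2 μ) x
        = fourierCoeff F i * e x ^ i := by
      rw [ae_all_iff]
      intro i
      filter_upwards [Lp.coeFn_smul (fourierCoeff F i) (fourierLp (T := 1) 2 i),
        coeFn_fourierLp (T := 1) 2 i] with x h3 h4
      rw [h3, Pi.smul_apply, h4, smul_eq_mul, fourier_eq]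
    filter_upwards [h1, h2, hFf] with x h3 h4 h5 h6
    change ENNReal.ofReal δ' ≤ edist _ _
    have h7 : δ' ≤ ‖∑ l ∈ Finset.Icc (-(L : ℤ)) L, fourierCoeff F l * e x ^ l - f x‖ := h6
    rw [h3, h5, edist_dist, dist_eq_norm]
    refine ENNReal.ofReal_le_ofReal (h7.trans (le_of_eq ?_))
    congr 2
    rw [Finset.sum_apply]
    exact Finset.sum_congr rfl (fun i _ => (h4 i).symm)

end Circle

lemma one_sub_pow_le' {r : ℝ} (h0 : 0 ≤ r) (h1 : r ≤ 1) (k : ℕ) : 1 - r ^ k ≤ k * (1 - r) := by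
  induction k with
  | zero => simp
  | succ k ih =>
    have h2 : r ^ k ≤ 1 := pow_le_one₀ h0 h1
    have h3 : 0 ≤ r ^ k := pow_nonneg h0 k
    push_cast
    rw [pow_succ]
    nlinarith

lemma pow_mul_one_sub {r : ℝ} (h0 : 0 ≤ r) (h1 : r ≤ 1) (a : ℕ) :
    ((a : ℝ) + 1) * (r ^ a * (1 - r)) ≤ 1 := by
  have h : ∀ a : ℕ, ((a : ℝ) + 1) * (r ^ a * (1 - r)) ≤ 1 - r ^ (a + 1) := by
    intro a
    induction a with
    | zero => simp
    | succ a ih =>
      have h3 : 0 ≤ r ^ a := pow_nonneg h0 a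
      have h4 : ((a : ℝ) + 1) * (r ^ (a + 1) * (1 - r)) ≤ ((a : ℝ) + 1) * (r ^ a * (1 - r)) := by
        have h5 : r ^ (a + 1) ≤ r ^ a := pow_le_pow_of_le_one h0 h1 (Nat.le_succ a)
        have h6 : 0 ≤ 1 - r := by linarith
        gcongr
      push_cast
      have h7 : r ^ (a + 1 + 1) = r ^ (a + 1) * r := pow_succ _ _
      rw [h7]
      nlinarith
  have h3 : 0 ≤ r ^ (a + 1) := pow_nonneg h0 _
  linarith [h a]

lemma pow_diff {r : ℝ} (h0 : 0 ≤ r) (h1 : r ≤ 1) {a b K L : ℕ} (ha : K ≤ a) (hb : K ≤ b)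
    (hab : a ≤ b + L) (hba : b ≤ a + L) : |r ^ a - r ^ b| ≤ L / ((K : ℝ) + 1) := by
  wlog h : a ≤ b generalizing a b with H
  · rw [abs_sub_comm]
    exact H hb ha hba hab (by omega)
  obtain ⟨k, rfl⟩ := Nat.exists_eq_add_of_le h
  have hk : k ≤ L := by omega
  have e : r ^ a - r ^ (a + k) = r ^ a * (1 - r ^ k) := by rw [pow_add]; ring
  have h2 : 0 ≤ r ^ a := pow_nonneg h0 _
  have h3 : r ^ k ≤ 1 := pow_le_one₀ h0 h1
  rw [e, abs_of_nonneg (mul_nonneg h2 (by linarith))]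
  rw [le_div_iff₀ (by positivity)]
  have h4 := one_sub_pow_le' h0 h1 k
  have h5 := pow_mul_one_sub h0 h1 K
  have h6 : r ^ a ≤ r ^ K := pow_le_pow_of_le_one h0 h1 ha
  have h7 : (k : ℝ) ≤ L := by exact_mod_cast hk
  have h8 : 0 ≤ 1 - r := by linarith
  have h9 : 0 ≤ r ^ K := pow_nonneg h0 _
  calc r ^ a * (1 - r ^ k) * ((K : ℝ) + 1) ≤ r ^ K * (k * (1 - r)) * ((K : ℝ) + 1) := by gcongr
    _ = k * (((K : ℝ) + 1) * (r ^ K * (1 - r))) := by ring
    _ ≤ L * 1 := by gcongr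
    _ = L := mul_one _

/-- The combined polynomial `∑ a_l Φ_m τ^m z^(m N + l)`. -/
noncomputable def comb (Φ : ℂ[X]) (L : ℕ) (a : ℤ → ℂ) (τ : ℂ) (N : ℕ) : ℂ[X] :=
  ∑ l ∈ Finset.Icc (-(L : ℤ)) L, ∑ m ∈ Finset.range (Φ.natDegree + 1),
    monomial ((m * N + l).toNat) (a l * Φ.coeff m * τ ^ m)

lemma comb_coeff_zero (Φ : ℂ[X]) (hΦ : Φ.coeff 0 = 0) (L : ℕ) (a : ℤ → ℂ) (τ : ℂ) (N N0 : ℕ)
    (hN : N0 + L ≤ N) (n : ℕ) (hn : n < N0) : (comb Φ L a τ N).coeff n = 0 := by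
  simp only [comb, finsetSum_coeff, coeff_monomial]
  refine Finset.sum_eq_zero (fun l hl => Finset.sum_eq_zero (fun m hm => ?_))
  rcases Nat.eq_zero_or_pos m with rfl | hm0
  · simp [hΦ]
  · rw [if_neg]
    intro h
    rw [Finset.mem_Icc] at hl
    have h1 : (N : ℤ) ≤ m * N := by
      have : (1 : ℤ) ≤ m := by exact_mod_cast hm0
      nlinarith [(Nat.cast_nonneg N : (0 : ℤ) ≤ N)]
    omega

lemma comb_coeff_le (Φ : ℂ[X]) (hΦ : Φ.coeff 0 = 0) (L : ℕ) (a : ℤ → ℂ) (C0 : ℝ) (hC : ∀ l, ‖a l‖ ≤ C0)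
    (τ : ℂ) (hτ : ‖τ‖ = 1) (N : ℕ) (hN : L ≤ N) (n : ℕ) :
    ‖(comb Φ L a τ N).coeff n‖ ≤ (∑ m ∈ Finset.range (Φ.natDegree + 1), ‖Φ.coeff m‖) * C0 := by
  have hC0 : 0 ≤ C0 := (norm_nonneg _).trans (hC 0)
  simp only [comb, finsetSum_coeff, coeff_monomial]
  rw [Finset.sum_comm, Finset.sum_mul]
  refine (norm_sum_le _ _).trans (Finset.sum_le_sum (fun m hm => ?_))
  rcases Nat.eq_zero_or_pos m with rfl | hm0
  · simp [hΦ]
  refine (norm_sum_le _ _).trans ?_
  have h1 : ∀ l ∈ Finset.Icc (-(L : ℤ)) L,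
      ‖(if (m * N + l : ℤ).toNat = n then a l * Φ.coeff m * τ ^ m else 0 : ℂ)‖ ≤
        if l = (n : ℤ) - m * N then ‖Φ.coeff m‖ * C0 else 0 := by
    intro l hl
    rw [Finset.mem_Icc] at hl
    have h2 : (N : ℤ) ≤ m * N := by
      have : (1 : ℤ) ≤ m := by exact_mod_cast hm0
      nlinarith [(Nat.cast_nonneg N : (0 : ℤ) ≤ N)]
    by_cases h : (m * N + l : ℤ).toNat = n
    · have h3 : l = (n : ℤ) - m * N := by omega
      rw [if_pos h, if_pos h3, norm_mul, norm_mul, norm_pow, hτ, one_pow, mul_one, mul_comm]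
      gcongr
      exact hC l
    · rw [if_neg h, norm_zero]
      split_ifs
      · positivity
      · exact le_rfl
  refine (Finset.sum_le_sum h1).trans ?_
  rw [Finset.sum_ite_eq']
  split_ifs
  · exact le_rfl
  · positivity

lemma comb_eval (Φ : ℂ[X]) (hΦ : Φ.coeff 0 = 0) (L : ℕ) (a : ℤ → ℂ)
    (τ : ℂ) (hτ : ‖τ‖ = 1) (N K : ℕ) (hN : K + L ≤ N) (ζ : ℂ) (hζ : ‖ζ‖ = 1) (r : ℝ) (h0 : 0 ≤ r)
    (h1 : r ≤ 1) :
    ‖(comb Φ L a τ N).eval ((r : ℂ) * ζ) -
      (∑ l ∈ Finset.Icc (-(L : ℤ)) L, a l * ζ ^ l) * Φ.eval (((r ^ N : ℝ) : ℂ) * (τ * ζ ^ N))‖ ≤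
    (∑ l ∈ Finset.Icc (-(L : ℤ)) L, ‖a l‖) * (∑ m ∈ Finset.range (Φ.natDegree + 1), ‖Φ.coeff m‖)
      * (L / ((K : ℝ) + 1)) := by
  have hζ0 : ζ ≠ 0 := by rintro rfl; simp at hζ
  rw [eval_eq_sum_range (p := Φ), Finset.sum_mul_sum]
  simp only [comb, eval_finsetSum, eval_monomial]
  rw [← Finset.sum_sub_distrib, Finset.sum_mul_sum, Finset.sum_mul]
  refine (norm_sum_le _ _).trans (Finset.sum_le_sum (fun l hl => ?_))
  rw [← Finset.sum_sub_distrib, Finset.sum_mul]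
  refine (norm_sum_le _ _).trans (Finset.sum_le_sum (fun m hm => ?_))
  rcases Nat.eq_zero_or_pos m with rfl | hm0
  · simp [hΦ]
  rw [Finset.mem_Icc] at hl
  have h2 : (N : ℤ) ≤ m * N := by
    have : (1 : ℤ) ≤ m := by exact_mod_cast hm0
    nlinarith [(Nat.cast_nonneg N : (0 : ℤ) ≤ N)]
  set k := (m * N + l : ℤ).toNat with hk
  have hkz : (k : ℤ) = m * N + l := by omega
  have e1 : ζ ^ k = ζ ^ l * (ζ ^ N) ^ m := by
    rw [← zpow_natCast, hkz, zpow_add₀ hζ0, mul_comm, ← pow_mul, ← zpow_natCast]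
    congr 2
    push_cast; ring
  have e2 : a l * Φ.coeff m * τ ^ m * ((r : ℂ) * ζ) ^ k -
      a l * ζ ^ l * (Φ.coeff m * (((r ^ N : ℝ) : ℂ) * (τ * ζ ^ N)) ^ m)
      = (a l * Φ.coeff m * (τ ^ m * (ζ ^ l * (ζ ^ N) ^ m))) * ((r ^ k - r ^ (m * N) : ℝ) : ℂ) := by
    rw [mul_pow, e1, mul_pow, mul_pow]
    push_cast
    rw [← pow_mul, mul_comm N m]
    ring
  rw [e2, norm_mul, norm_mul, norm_mul, norm_mul, norm_mul, norm_pow, hτ, one_pow, norm_zpow, hζ,
    one_zpow, norm_pow, norm_pow, hζ, one_pow, one_pow, mul_one, mul_one, mul_one,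
    Complex.norm_real, Real.norm_eq_abs]
  have hmN : N ≤ m * N := Nat.le_mul_of_pos_left _ hm0
  have h3 : K ≤ k := by omega
  have h4 : K ≤ m * N := by omega
  have h5 : k ≤ m * N + L := by
    have : ((k : ℕ) : ℤ) ≤ ((m * N + L : ℕ) : ℤ) := by push_cast; linarith [hl.2]
    exact_mod_cast this
  have h6 : m * N ≤ k + L := by
    have : ((m * N : ℕ) : ℤ) ≤ ((k + L : ℕ) : ℤ) := by push_cast; linarith [hl.1]
    exact_mod_cast this
  gcongr
  exact pow_diff h0 h1 h3 h4 h5 h6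

section Pieces

lemma smul_mem_KK {c : ℝ} {w : ℂ} (hw : ‖w‖ = 1) (hc : w.re ≤ c) {t : ℝ} (h0 : 0 ≤ t)
    (h1 : t ≤ 1) : ((t : ℂ) * w) ∈ KK c := by
  have hn : ‖(t : ℂ) * w‖ = t := by
    rw [norm_mul, hw, mul_one, Complex.norm_real, Real.norm_of_nonneg h0]
  refine ⟨by rw [hn]; exact h1, ?_⟩
  rw [hn, Complex.re_ofReal_mul, mul_comm c]
  exact mul_le_mul_of_nonneg_left hc h0

lemma norm_eval_le (Φ : ℂ[X]) {z : ℂ} (hz : ‖z‖ ≤ 1) :
    ‖Φ.eval z‖ ≤ ∑ m ∈ Finset.range (Φ.natDegree + 1), ‖Φ.coeff m‖ := by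
  rw [eval_eq_sum_range]
  refine (norm_sum_le _ _).trans (Finset.sum_le_sum (fun m _ => ?_))
  rw [norm_mul, norm_pow]
  exact mul_le_of_le_one_right (norm_nonneg _) (pow_le_one₀ (norm_nonneg _) hz)

lemma piece (Φ : ℂ[X]) (hΦ0 : Φ.coeff 0 = 0) {c ε₁ : ℝ} (hΦ : ∀ z ∈ KK c, ‖Φ.eval z‖ ≤ 3)
    (hΦ1 : ∀ z ∈ KK c, ‖z‖ = 1 → ‖Φ.eval z - 1‖ ≤ ε₁) {A : Set 𝕋} (hA : MeasurableSet A)
    (D : 𝕋 → ℂ) (hD : Measurable D) {M : ℝ} (hM : ∀ x, ‖D x‖ ≤ M) {δ : ℝ} (hδ : 0 < δ) (N0 : ℕ) :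
    ∃ (P : ℂ[X]) (E : Set 𝕋), (∀ n < N0, P.coeff n = 0) ∧
      (∀ n, ‖P.coeff n‖ ≤ (∑ m ∈ Finset.range (Φ.natDegree + 1), ‖Φ.coeff m‖) * (M * μ.real A)) ∧
      μ E ≤ ENNReal.ofReal δ + μ A * μ {x | c < (e x).re} ∧
      ∀ x ∉ E, ‖P.eval (e x) - A.indicator D x‖ ≤ ε₁ * ‖A.indicator D x‖ + δ ∧
        ∀ r : ℝ, 0 ≤ r → r ≤ 1 → ‖P.eval ((r : ℂ) * e x)‖ ≤ 3 * ‖A.indicator D x‖ + δ := by
  set f := A.indicator D with hf
  have hM0 : 0 ≤ M := (norm_nonneg _).trans (hM 0)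
  have hfm : Measurable f := hD.indicator hA
  have hfM : ∀ x, ‖f x‖ ≤ M := by
    intro x
    rw [hf, norm_indicator_eq_indicator_norm]
    by_cases hx : x ∈ A
    · rw [Set.indicator_of_mem hx]; exact hM x
    · rw [Set.indicator_of_notMem hx]; exact hM0
  set B := ∑ m ∈ Finset.range (Φ.natDegree + 1), ‖Φ.coeff m‖ with hB
  have hB0 : 0 ≤ B := Finset.sum_nonneg (fun _ _ => norm_nonneg _)
  have hint : ∫ x, ‖f x‖ ∂μ ≤ M * μ.real A := by
    have h1 : ∫ x, ‖f x‖ ∂μ ≤ ∫ x, A.indicator (fun _ => M) x ∂μ := by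
      apply integral_mono_of_nonneg (Eventually.of_forall (fun _ => norm_nonneg _))
      · exact (integrable_const M).indicator hA
      · refine Eventually.of_forall (fun x => ?_)
        by_cases hx : x ∈ A
        · simp [hf, hx, hM x]
        · simp [hf, hx]
    refine h1.trans (le_of_eq ?_)
    rw [integral_indicator_const _ hA, smul_eq_mul, mul_comm]
  set δ' := δ / (2 * (B + 3)) with hδ'
  have hδ'0 : 0 < δ' := by positivity
  obtain ⟨L, a, ha, hμ⟩ := trig_approx f hfm M hfM (M * μ.real A) hint hδ'0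
    (δ := ENNReal.ofReal δ) (by simpa using hδ)
  set Sa := ∑ l ∈ Finset.Icc (-(L : ℤ)) L, ‖a l‖ with hSa
  have hSa0 : 0 ≤ Sa := Finset.sum_nonneg (fun _ _ => norm_nonneg _)
  obtain ⟨K, hK⟩ := exists_nat_gt (Sa * B * L / (δ / 2))
  rw [div_lt_iff₀ (by positivity)] at hK
  set K' := max K N0 with hK'
  have hKK' : (K : ℝ) ≤ K' := by exact_mod_cast le_max_left K N0
  have hN0K : N0 ≤ K' := le_max_right K N0
  have hdiff : Sa * B * (L / ((K' : ℝ) + 1)) ≤ δ / 2 := by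
    rw [mul_div_assoc', div_le_iff₀ (by positivity)]
    nlinarith
  set N := K' + L with hN
  obtain ⟨τ, hτ, hrot⟩ := exists_rotation hA c N
  refine ⟨comb Φ L a τ N, {x | δ' ≤ ‖∑ l ∈ Finset.Icc (-(L : ℤ)) L, a l * e x ^ l - f x‖} ∪
    {x | x ∈ A ∧ c < (τ * e x ^ N).re}, ?_, ?_, ?_, ?_⟩
  · intro n hn
    exact comb_coeff_zero Φ hΦ0 L a τ N N0 (by omega) n hn
  · intro n
    exact comb_coeff_le Φ hΦ0 L a _ ha τ hτ N (by omega) n
  · exact (measure_union_le _ _).trans (add_le_add hμ hrot)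
  · intro x hx
    simp only [Set.mem_union, not_or] at hx
    obtain ⟨hx1, hx2⟩ := hx
    have hx1 : ‖∑ l ∈ Finset.Icc (-(L : ℤ)) L, a l * e x ^ l - f x‖ < δ' := not_le.1 hx1
    set q := ∑ l ∈ Finset.Icc (-(L : ℤ)) L, a l * e x ^ l with hq
    have hq1 : ‖q‖ ≤ ‖f x‖ + δ' := by
      have := norm_add_le (q - f x) (f x)
      rw [sub_add_cancel] at this
      linarith
    set w := τ * e x ^ N with hw
    have hwn : ‖w‖ = 1 := by rw [hw, norm_mul, hτ, norm_pow, norm_e]; simp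
    have hev : ∀ r : ℝ, 0 ≤ r → r ≤ 1 →
        ‖(comb Φ L a τ N).eval ((r : ℂ) * e x) - q * Φ.eval (((r ^ N : ℝ) : ℂ) * w)‖ ≤ δ / 2 := by
      intro r h0 h1
      exact (comb_eval Φ hΦ0 L a τ hτ N K' le_rfl (e x) (norm_e x) r h0 h1).trans hdiff
    have hδδ : δ' * (B + 3) = δ / 2 := by rw [hδ']; field_simp
    have hδ'3 : 3 * δ' ≤ δ / 2 := by nlinarith
    have hδ'B : δ' * B ≤ δ / 2 := by nlinarith
    by_cases hxA : x ∈ A
    · have hwc : w.re ≤ c := by
        by_contra h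
        exact hx2 ⟨hxA, not_le.1 h⟩
      constructor
      · have h1 := hev 1 zero_le_one le_rfl
        simp only [one_pow, Complex.ofReal_one, one_mul] at h1
        have hwK : w ∈ KK c := by
          have := smul_mem_KK hwn hwc zero_le_one le_rfl
          simpa using this
        have h2 := hΦ w hwK
        have h3 := hΦ1 w hwK hwn
        have e1 : (comb Φ L a τ N).eval (e x) - f x =
            ((comb Φ L a τ N).eval (e x) - q * Φ.eval w) + (q - f x) * Φ.eval w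
              + f x * (Φ.eval w - 1) := by ring
        rw [e1]
        refine (norm_add₃_le).trans ?_
        rw [norm_mul, norm_mul]
        have h4 : ‖q - f x‖ * ‖Φ.eval w‖ ≤ δ' * 3 := by gcongr
        have h5 : ‖f x‖ * ‖Φ.eval w - 1‖ ≤ ‖f x‖ * ε₁ := by gcongr
        linarith
      · intro r h0 h1
        have h2 := hev r h0 h1
        have hr0 : 0 ≤ r ^ N := pow_nonneg h0 _
        have hr1 : r ^ N ≤ 1 := pow_le_one₀ h0 h1
        have h3 := hΦ _ (smul_mem_KK hwn hwc hr0 hr1)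
        have e1 : (comb Φ L a τ N).eval ((r : ℂ) * e x) =
            ((comb Φ L a τ N).eval ((r : ℂ) * e x) - q * Φ.eval (((r ^ N : ℝ) : ℂ) * w))
              + q * Φ.eval (((r ^ N : ℝ) : ℂ) * w) := by ring
        rw [e1]
        refine (norm_add_le _ _).trans ?_
        rw [norm_mul]
        have h4 : ‖q‖ * ‖Φ.eval (((r ^ N : ℝ) : ℂ) * w)‖ ≤ (‖f x‖ + δ') * 3 := by gcongr
        linarith
    · have hfx : f x = 0 := Set.indicator_of_notMem hxA D
      have hall : ∀ r : ℝ, 0 ≤ r → r ≤ 1 → ‖(comb Φ L a τ N).eval ((r : ℂ) * e x)‖ ≤ δ := by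
        intro r h0 h1
        have h2 := hev r h0 h1
        have hr0 : 0 ≤ r ^ N := pow_nonneg h0 _
        have hr1 : r ^ N ≤ 1 := pow_le_one₀ h0 h1
        have h3 : ‖Φ.eval (((r ^ N : ℝ) : ℂ) * w)‖ ≤ B := by
          apply norm_eval_le
          rw [norm_mul, hwn, mul_one, Complex.norm_real, Real.norm_of_nonneg hr0]
          exact hr1
        have e1 : (comb Φ L a τ N).eval ((r : ℂ) * e x) =
            ((comb Φ L a τ N).eval ((r : ℂ) * e x) - q * Φ.eval (((r ^ N : ℝ) : ℂ) * w))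
              + q * Φ.eval (((r ^ N : ℝ) : ℂ) * w) := by ring
        rw [e1]
        refine (norm_add_le _ _).trans ?_
        rw [norm_mul]
        rw [hfx, norm_zero, zero_add] at hq1
        have h4 : ‖q‖ * ‖Φ.eval (((r ^ N : ℝ) : ℂ) * w)‖ ≤ δ' * B := by gcongr
        linarith
      rw [hfx, norm_zero]
      constructor
      · have := hall 1 zero_le_one le_rfl
        simpa using this
      · intro r h0 h1
        have := hall r h0 h1
        linarith

end Pieces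

section Blocks

/-- representative in `(0,1]` -/
noncomputable def rep (x : 𝕋) : ℝ := (AddCircle.equivIoc (1 : ℝ) 0 x : ℝ)

lemma rep_measurable : Measurable rep :=
  measurable_subtype_coe.comp (AddCircle.measurableEquivIoc (1 : ℝ) 0).measurable

lemma rep_mem (x : 𝕋) : 0 < rep x ∧ rep x ≤ 1 := by
  have := (AddCircle.equivIoc (1 : ℝ) 0 x).2
  exact ⟨this.1, this.2.trans (by norm_num)⟩

lemma rep_measure (a b : ℝ) (hab : a ≤ b) :
    μ.real {x | a < rep x ∧ rep x ≤ b} ≤ b - a := by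
  have hm : MeasurableSet {x | a < rep x ∧ rep x ≤ b} :=
    (measurableSet_lt measurable_const rep_measurable).inter
      (measurableSet_le rep_measurable measurable_const)
  have h := AddCircle.add_projection_respects_measure (1 : ℝ) 0 hm
  have h2 : volume {x | a < rep x ∧ rep x ≤ b} ≤ ENNReal.ofReal (b - a) := by
    rw [h, ← Real.volume_Ioc]
    apply measure_mono
    rintro t ⟨ht1, ht2⟩
    have h3 : rep (t : 𝕋) = t := AddCircle.equivIoc_coe_of_mem ht2
    change a < rep (t : 𝕋) ∧ rep (t : 𝕋) ≤ b at ht1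
    rw [h3] at ht1
    exact ht1
  rw [μ_volume] at h2
  exact ENNReal.toReal_le_of_le_ofReal (by linarith) h2

lemma block (D : 𝕋 → ℂ) (hD : Measurable D) {M : ℝ} (hM : ∀ x, ‖D x‖ ≤ M) {ε : ℝ} (hε : 0 < ε)
    (N0 : ℕ) :
    ∃ (P : ℂ[X]) (E : Set 𝕋), (∀ n < N0, P.coeff n = 0) ∧ (∀ n, ‖P.coeff n‖ ≤ ε) ∧
      μ E ≤ ENNReal.ofReal ε ∧
      ∀ x ∉ E, ‖P.eval (e x) - D x‖ ≤ ε ∧
        ∀ r : ℝ, 0 ≤ r → r ≤ 1 → ‖P.eval ((r : ℂ) * e x)‖ ≤ 3 * ‖D x‖ + ε := by
  have hM0 : 0 ≤ M := (norm_nonneg _).trans (hM 0)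
  set ε₁ := ε / (2 * (M + 1)) with hε₁
  have hε₁0 : 0 < ε₁ := by positivity
  obtain ⟨c, hc0, hc1, hc⟩ := cap_small (ε := ENNReal.ofReal (ε / 2)) (by simpa using hε)
  obtain ⟨Φ, hΦ0, hΦ, hΦ1⟩ := key_poly hc0 hc1 hε₁0
  set B := ∑ m ∈ Finset.range (Φ.natDegree + 1), ‖Φ.coeff m‖ with hB
  have hB0 : 0 ≤ B := Finset.sum_nonneg (fun _ _ => norm_nonneg _)
  obtain ⟨J, hJ⟩ := exists_nat_gt (B * M / ε)
  have hJ0 : (0 : ℝ) < J := lt_of_le_of_lt (by positivity) hJ
  rw [div_lt_iff₀ hε] at hJ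
  set δ := ε / (2 * J) with hδ
  have hδ0 : 0 < δ := by positivity
  set U : ℕ → Set 𝕋 := fun i => {x | rep x ≤ i / J} with hU
  set A : ℕ → Set 𝕋 := fun i => {x | (i : ℝ) / J < rep x ∧ rep x ≤ ((i : ℝ) + 1) / J} with hA
  have hUm : ∀ i, MeasurableSet (U i) := fun i => measurableSet_le rep_measurable measurable_const
  have hAm : ∀ i, MeasurableSet (A i) := fun i =>
    (measurableSet_lt measurable_const rep_measurable).inter
      (measurableSet_le rep_measurable measurable_const)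
  have hUA : ∀ i, U (i + 1) = U i ∪ A i := by
    intro i
    ext x
    simp only [hU, hA, Set.mem_ofPred_eq, Set.mem_union]
    push_cast
    constructor
    · intro h
      rcases le_or_gt (rep x) (i / J) with h1 | h1
      · exact Or.inl h1
      · exact Or.inr ⟨h1, h⟩
    · rintro (h | h)
      · refine h.trans ?_
        gcongr
        linarith
      · exact h.2
  have hdisj : ∀ i, Disjoint (U i) (A i) := by
    intro i
    rw [Set.disjoint_left]
    intro x h1 h2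
    exact absurd h1 (not_le.2 h2.1)
  have hAμ : ∀ i, μ.real (A i) ≤ 1 / J := by
    intro i
    have h := rep_measure ((i : ℝ) / J) (((i : ℝ) + 1) / J) (by gcongr; linarith)
    refine h.trans (le_of_eq ?_)
    rw [← sub_div]; ring
  have key : ∀ i : ℕ, ∃ (P : ℂ[X]) (E : Set 𝕋), (∀ n < N0, P.coeff n = 0) ∧
      (∀ n, ‖P.coeff n‖ ≤ ε) ∧
      μ E ≤ (i : ENNReal) * ENNReal.ofReal δ + μ (U i) * μ {x | c < (e x).re} ∧
      ∀ x ∉ E, ‖P.eval (e x) - (U i).indicator D x‖ ≤ ε₁ * ‖(U i).indicator D x‖ + i * δ ∧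
        ∀ r : ℝ, 0 ≤ r → r ≤ 1 →
          ‖P.eval ((r : ℂ) * e x)‖ ≤ 3 * ‖(U i).indicator D x‖ + i * δ := by
    intro i
    induction i with
    | zero =>
      refine ⟨0, ∅, by simp, by simpa using hε.le, by simp, ?_⟩
      intro x _
      have h0 : x ∉ U 0 := by
        simp only [hU, Set.mem_ofPred_eq, Nat.cast_zero, zero_div, not_le]
        exact (rep_mem x).1
      rw [Set.indicator_of_notMem h0]
      simp
    | succ i ih =>
      obtain ⟨P, E, hP0, hPc, hPE, hP⟩ := ih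
      obtain ⟨P', E', hP0', hPc', hPE', hP'⟩ := piece Φ hΦ0 hΦ hΦ1 (hAm i) D hD hM hδ0
        (max N0 (P.natDegree + 1))
      refine ⟨P + P', E ∪ E', ?_, ?_, ?_, ?_⟩
      · intro n hn
        rw [coeff_add, hP0 n hn, hP0' n (lt_of_lt_of_le hn (le_max_left _ _)), add_zero]
      · intro n
        rw [coeff_add]
        rcases lt_or_ge n (P.natDegree + 1) with h | h
        · rw [hP0' n (lt_of_lt_of_le h (le_max_right _ _)), add_zero]
          exact hPc n
        · rw [coeff_eq_zero_of_natDegree_lt (by omega), zero_add]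
          refine (hPc' n).trans ?_
          calc B * (M * μ.real (A i)) ≤ B * (M * (1 / J)) := by gcongr; exact hAμ i
            _ = B * M / J := by ring
            _ ≤ ε := by rw [div_le_iff₀ hJ0]; linarith
      · refine (measure_union_le _ _).trans ?_
        have h1 : μ (U (i + 1)) = μ (U i) + μ (A i) := by
          rw [hUA i, measure_union (hdisj i) (hAm i)]
        rw [h1]
        calc μ E + μ E' ≤ ((i : ENNReal) * ENNReal.ofReal δ + μ (U i) * μ {x | c < (e x).re}) +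
              (ENNReal.ofReal δ + μ (A i) * μ {x | c < (e x).re}) := add_le_add hPE hPE'
          _ = _ := by push_cast; ring
      · intro x hx
        rw [Set.mem_union, not_or] at hx
        obtain ⟨h1, h2⟩ := hP x hx.1
        obtain ⟨h3, h4⟩ := hP' x hx.2
        have h5 : (U (i + 1)).indicator D x = (U i).indicator D x + (A i).indicator D x := by
          rw [hUA i, Set.indicator_union_of_disjoint (hdisj i)]
        have h6 : ‖(U (i + 1)).indicator D x‖ = ‖(U i).indicator D x‖ + ‖(A i).indicator D x‖ := by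
          rw [h5]
          by_cases hxU : x ∈ U i
          · have : x ∉ A i := fun h => Set.disjoint_left.1 (hdisj i) hxU h
            rw [Set.indicator_of_notMem this]; simp
          · rw [Set.indicator_of_notMem hxU]; simp
        constructor
        · rw [h6, eval_add, h5]
          have : P.eval (e x) + P'.eval (e x) - ((U i).indicator D x + (A i).indicator D x) =
            (P.eval (e x) - (U i).indicator D x) + (P'.eval (e x) - (A i).indicator D x) := by ring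
          rw [this]
          refine (norm_add_le _ _).trans ?_
          push_cast
          linarith
        · intro r hr0 hr1
          rw [h6, eval_add]
          refine (norm_add_le _ _).trans ?_
          have := h2 r hr0 hr1
          have := h4 r hr0 hr1
          push_cast
          linarith
  obtain ⟨P, E, h1, h2, h3, h4⟩ := key J
  have hUJ : U J = Set.univ := by
    ext x
    simp only [hU, Set.mem_ofPred_eq, Set.mem_univ, iff_true]
    rw [div_self hJ0.ne']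
    exact (rep_mem x).2
  have hJδ : (J : ℝ) * δ = ε / 2 := by rw [hδ]; field_simp
  rw [hUJ] at h3 h4
  refine ⟨P, E, h1, h2, ?_, ?_⟩
  · refine h3.trans ?_
    rw [measure_univ, one_mul]
    calc _ ≤ ENNReal.ofReal (ε / 2) + ENNReal.ofReal (ε / 2) := by
          refine add_le_add (le_of_eq ?_) hc
          rw [← hJδ, ENNReal.ofReal_mul (by positivity), ENNReal.ofReal_natCast]
      _ = ENNReal.ofReal ε := by
          rw [← ENNReal.ofReal_add (by positivity) (by positivity)]; congr 1; ring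
  · intro x hx
    obtain ⟨h5, h6⟩ := h4 x hx
    rw [Set.indicator_univ, hJδ] at h5 h6
    constructor
    · refine h5.trans ?_
      have h7 : ε₁ * ‖D x‖ ≤ ε / 2 := by
        have h8 : ‖D x‖ ≤ M := hM x
        calc ε₁ * ‖D x‖ ≤ ε₁ * (M + 1) := by gcongr; linarith
          _ = ε / 2 := by rw [hε₁]; field_simp
      linarith
    · intro r hr0 hr1
      have := h6 r hr0 hr1
      linarith

end Blocks

section Iteration

lemma eval_small {P : ℂ[X]} {N0 : ℕ} (h0 : ∀ n < N0, P.coeff n = 0) {ε : ℝ} (hε : 0 ≤ ε)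
    (hc : ∀ n, ‖P.coeff n‖ ≤ ε) {ρ : ℝ} (hρ0 : 0 ≤ ρ) (hρ1 : ρ < 1) (hN : ρ ^ N0 ≤ 1 - ρ) {z : ℂ}
    (hz : ‖z‖ ≤ ρ) : ‖P.eval z‖ ≤ ε := by
  rw [eval_eq_sum_range' (n := P.natDegree + 1 + N0) (by omega)]
  have h1 : ∑ i ∈ Finset.range (P.natDegree + 1 + N0), P.coeff i * z ^ i =
      ∑ i ∈ Finset.Ico N0 (P.natDegree + 1 + N0), P.coeff i * z ^ i := by
    rw [Finset.range_eq_Ico, ← Finset.sum_Ico_consecutive _ (Nat.zero_le N0) (by omega)]
    rw [Finset.sum_eq_zero, zero_add]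
    intro i hi
    rw [h0 i (Finset.mem_Ico.1 hi).2, zero_mul]
  rw [h1]
  calc _ ≤ ∑ i ∈ Finset.Ico N0 (P.natDegree + 1 + N0), ε * ρ ^ i := by
        refine (norm_sum_le _ _).trans (Finset.sum_le_sum (fun i _ => ?_))
        rw [norm_mul, norm_pow]
        gcongr
        exact hc i
    _ = ε * ∑ i ∈ Finset.Ico N0 (P.natDegree + 1 + N0), ρ ^ i := by rw [Finset.mul_sum]
    _ ≤ ε * (ρ ^ N0 / (1 - ρ)) := by
        gcongr
        exact geom_sum_Ico_le_of_lt_one hρ0 hρ1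
    _ ≤ ε * 1 := by
        gcongr
        rw [div_le_one (by linarith)]; exact hN
    _ = ε := mul_one _

lemma eval_radial (T : ℂ[X]) {ζ : ℂ} (hζ : ‖ζ‖ = 1) {r : ℝ} (h0 : 0 ≤ r) (h1 : r ≤ 1) :
    ‖T.eval ((r : ℂ) * ζ) - T.eval ζ‖ ≤
      (∑ m ∈ Finset.range (T.natDegree + 1), ‖T.coeff m‖ * m) * (1 - r) := by
  rw [eval_eq_sum_range, eval_eq_sum_range, ← Finset.sum_sub_distrib, Finset.sum_mul]
  refine (norm_sum_le _ _).trans (Finset.sum_le_sum (fun m _ => ?_))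
  have e1 : T.coeff m * ((r : ℂ) * ζ) ^ m - T.coeff m * ζ ^ m =
      T.coeff m * ζ ^ m * (((r ^ m - 1 : ℝ)) : ℂ) := by
    rw [mul_pow]; push_cast; ring
  rw [e1, norm_mul, norm_mul, norm_pow, hζ, one_pow, mul_one, Complex.norm_real, Real.norm_eq_abs,
    abs_sub_comm, abs_of_nonneg (by linarith [pow_le_one₀ (n := m) h0 h1]), mul_assoc]
  gcongr
  exact one_sub_pow_le' h0 h1 m

lemma step (k : ℕ) (S : ℂ[X]) (ρ : ℝ) (hρ0 : 0 ≤ ρ) (hρ1 : ρ < 1) (G : 𝕋 → ℝ) (hG : Measurable G)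
    (M : ℝ) (hM : ∀ x, |G x| ≤ M) :
    ∃ (P : ℂ[X]) (ρ' : ℝ) (E : Set 𝕋), (∀ n, ‖P.coeff n‖ ≤ (1 / 2) ^ (k + 1)) ∧
      (∀ z : ℂ, ‖z‖ ≤ ρ → ‖P.eval z‖ ≤ (1 / 2) ^ (k + 1)) ∧
      μ E ≤ ENNReal.ofReal ((1 / 2) ^ (k + 1)) ∧
      ρ ≤ ρ' ∧ ρ' < 1 ∧ 1 - (1 / 2) ^ (k + 1) ≤ ρ' ∧
      (∀ x ∉ E, ‖(S + P).eval (e x) - G x‖ ≤ (1 / 2) ^ (k + 1) ∧
        ∀ r : ℝ, 0 ≤ r → r ≤ 1 →
          ‖P.eval ((r : ℂ) * e x)‖ ≤ 3 * ‖(G x : ℂ) - S.eval (e x)‖ + (1 / 2) ^ (k + 1)) ∧
      (∀ x, ∀ r : ℝ, ρ' ≤ r → r ≤ 1 →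
        ‖(S + P).eval ((r : ℂ) * e x) - (S + P).eval (e x)‖ ≤ (1 / 2) ^ (k + 1)) := by
  set ε : ℝ := (1 / 2) ^ (k + 1) with hε
  have hε0 : 0 < ε := by positivity
  have hε1 : ε < 1 := pow_lt_one₀ (by norm_num) (by norm_num) (by omega)
  obtain ⟨N0, hN0⟩ := exists_pow_lt_of_lt_one (show 0 < 1 - ρ by linarith) hρ1
  have hSm : Measurable (fun x : 𝕋 => (G x : ℂ) - S.eval (e x)) := by
    apply Measurable.sub
    · exact Complex.measurable_ofReal.comp hG
    · exact (S.continuous.comp e_continuous).measurable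
  obtain ⟨P, E, h0, hc, hE, hP⟩ := block (fun x => (G x : ℂ) - S.eval (e x)) hSm
    (M := M + ∑ m ∈ Finset.range (S.natDegree + 1), ‖S.coeff m‖) (fun x => by
      refine (norm_sub_le _ _).trans ?_
      have h1 := hM x
      have h2 := norm_eval_le S (z := e x) (norm_e x).le
      rw [Complex.norm_real, Real.norm_eq_abs]
      linarith) hε0 N0
  set T := S + P with hT
  set C := ∑ m ∈ Finset.range (T.natDegree + 1), ‖T.coeff m‖ * m with hC
  have hC0 : 0 ≤ C := Finset.sum_nonneg (fun _ _ => by positivity)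
  set ρ' := max ρ (1 - ε / (C + 1)) with hρ'
  refine ⟨P, ρ', E, hc, ?_, hE, le_max_left _ _, ?_, ?_, ?_, ?_⟩
  · intro z hz
    exact eval_small h0 hε0.le hc hρ0 hρ1 hN0.le hz
  · rw [hρ', max_lt_iff]
    refine ⟨hρ1, ?_⟩
    have : 0 < ε / (C + 1) := by positivity
    linarith
  · refine le_trans ?_ (le_max_right _ _)
    have : ε / (C + 1) ≤ ε := div_le_self hε0.le (by linarith)
    linarith
  · intro x hx
    obtain ⟨h1, h2⟩ := hP x hx
    refine ⟨?_, h2⟩
    rw [eval_add]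
    have : S.eval (e x) + P.eval (e x) - (G x : ℂ) = P.eval (e x) - ((G x : ℂ) - S.eval (e x)) := by
      ring
    rw [this]; exact h1
  · intro x r hr hr1
    have hρ'0 : 0 ≤ ρ' := hρ0.trans (le_max_left _ _)
    refine (eval_radial T (norm_e x) (hρ'0.trans hr) hr1).trans ?_
    rw [← hC]
    have h1 : 1 - ε / (C + 1) ≤ r := (le_max_right _ _).trans hr
    have h2 : 1 - r ≤ ε / (C + 1) := by linarith
    calc C * (1 - r) ≤ C * (ε / (C + 1)) := by gcongr
      _ ≤ (C + 1) * (ε / (C + 1)) := by gcongr; linarith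
      _ = ε := by field_simp

lemma seq_exists (G : ℕ → 𝕋 → ℝ) (hG : ∀ k, Measurable (G k)) (M : ℕ → ℝ)
    (hM : ∀ k x, |G k x| ≤ M k) :
    ∃ (p S : ℕ → ℂ[X]) (ρ : ℕ → ℝ) (E : ℕ → Set 𝕋), S 0 = 0 ∧ (∀ k, S (k + 1) = S k + p k) ∧
      ρ 0 = 0 ∧ Monotone ρ ∧ (∀ k, ρ k < 1) ∧ (∀ k, 1 - (1 / 2 : ℝ) ^ (k + 1) ≤ ρ (k + 1)) ∧
      (∀ k n, ‖(p k).coeff n‖ ≤ (1 / 2 : ℝ) ^ (k + 1)) ∧
      (∀ k, ∀ z : ℂ, ‖z‖ ≤ ρ k → ‖(p k).eval z‖ ≤ (1 / 2 : ℝ) ^ (k + 1)) ∧
      (∀ k, μ (E k) ≤ ENNReal.ofReal ((1 / 2 : ℝ) ^ (k + 1))) ∧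
      (∀ k, ∀ x ∉ E k, ‖(S (k + 1)).eval (e x) - G (k + 1) x‖ ≤ (1 / 2 : ℝ) ^ (k + 1) ∧
        ∀ r : ℝ, 0 ≤ r → r ≤ 1 → ‖(p k).eval ((r : ℂ) * e x)‖ ≤
          3 * ‖(G (k + 1) x : ℂ) - (S k).eval (e x)‖ + (1 / 2 : ℝ) ^ (k + 1)) ∧
      (∀ k, ∀ x, ∀ r : ℝ, ρ (k + 1) ≤ r → r ≤ 1 →
        ‖(S (k + 1)).eval ((r : ℂ) * e x) - (S (k + 1)).eval (e x)‖ ≤ (1 / 2 : ℝ) ^ (k + 1)) := by
  have hstep : ∀ (k : ℕ) (s : {s : ℂ[X] × ℝ // 0 ≤ s.2 ∧ s.2 < 1}), _ := fun k s =>
    step k s.1.1 s.1.2 s.2.1 s.2.2 (G (k + 1)) (hG _) (M (k + 1)) (hM _)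
  choose P ρ' E hPc hPs hPE hρρ hρ1 hρk hPx hPr using hstep
  let st : ℕ → {s : ℂ[X] × ℝ // 0 ≤ s.2 ∧ s.2 < 1} := fun k => Nat.rec ⟨(0, 0), by norm_num⟩
    (fun k s => ⟨(s.1.1 + P k s, ρ' k s), s.2.1.trans (hρρ k s), hρ1 k s⟩) k
  refine ⟨fun k => P k (st k), fun k => (st k).1.1, fun k => (st k).1.2, fun k => E k (st k),
    rfl, fun k => rfl, rfl, monotone_nat_of_le_succ (fun k => hρρ k (st k)),
    fun k => (st k).2.2, fun k => hρk k (st k), fun k n => hPc k (st k) n,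
    fun k => hPs k (st k), fun k => hPE k (st k), fun k => hPx k (st k), fun k => hPr k (st k)⟩

/-- The main construction on the additive circle. -/
lemma main_seq (G : ℕ → 𝕋 → ℝ) (hG : ∀ k, Measurable (G k)) (M : ℕ → ℝ)
    (hM : ∀ k x, |G k x| ≤ M k)
    (hinc : ∀ k x, |G (k + 1) x - G k x| ≤ 1 / ((k : ℝ) + 1)) :
    ∃ a : ℕ → ℂ, (∀ n, ‖a n‖ ≤ 1) ∧ Tendsto a atTop (𝓝 0) ∧
      ∀ᵐ x ∂μ, ∀ η > 0, ∀ K : ℕ, ∃ R < 1, ∀ r : ℝ, R ≤ r → r < 1 → ∃ k ≥ K,
        ‖(∑' n, a n * ((r : ℂ) * e x) ^ n) - G k x‖ ≤ η := by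
  classical
  obtain ⟨p, S, ρ, E, hS0, hSs, hρ00, hρmono, hρlt, hρge, hcoeff, hPs, hPE, hPx, hPr⟩ :=
    seq_exists G hG M hM
  have hρnn : ∀ k, 0 ≤ ρ k := fun k => by rw [← hρ00]; exact hρmono (Nat.zero_le k)
  have hgeo : Summable (fun k : ℕ => (1 / 2 : ℝ) ^ (k + 1)) :=
    (summable_nat_add_iff 1).2 (summable_geometric_of_lt_one (by norm_num) (by norm_num))
  have hgeo1 : ∑' k : ℕ, (1 / 2 : ℝ) ^ (k + 1) = 1 := by
    simp_rw [pow_succ]
    rw [tsum_mul_right, tsum_geometric_of_lt_one (by norm_num) (by norm_num)]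
    norm_num
  obtain ⟨a, ha⟩ : ∃ a : ℕ → ℂ, ∀ n, a n = ∑' k, (p k).coeff n := ⟨_, fun _ => rfl⟩
  have hsumc : ∀ n, Summable (fun k => (p k).coeff n) := fun n =>
    Summable.of_norm_bounded hgeo (fun k => hcoeff k n)
  refine ⟨a, ?_, ?_, ?_⟩
  · intro n
    rw [← hgeo1, ha]
    exact tsum_of_norm_bounded hgeo.hasSum (fun k => hcoeff k n)
  · have := tendsto_tsum_of_dominated_convergence (𝓕 := atTop)
      (f := fun (n : ℕ) (k : ℕ) => (p k).coeff n) (g := fun _ => (0 : ℂ)) hgeo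
      (fun k => by
        apply tendsto_const_nhds.congr'
        filter_upwards [eventually_gt_atTop (p k).natDegree] with n hn
        exact (coeff_eq_zero_of_natDegree_lt hn).symm)
      (Eventually.of_forall (fun n k => hcoeff k n))
    simp only [tsum_zero] at this
    exact this.congr (fun n => (ha n).symm)
  -- the function
  have hf : ∀ z : ℂ, ‖z‖ < 1 → HasSum (fun k => (p k).eval z) (∑' n, a n * z ^ n) := by
    intro z hz
    have hs2 : Summable (fun q : ℕ × ℕ => (p q.1).coeff q.2 * z ^ q.2) := by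
      refine Summable.of_norm_bounded (g := fun q : ℕ × ℕ => (1 / 2 : ℝ) ^ (q.1 + 1) * ‖z‖ ^ q.2)
        ?_ ?_
      · exact hgeo.mul_of_nonneg (summable_geometric_of_lt_one (norm_nonneg _) hz)
          (fun _ => by positivity) (fun _ => by positivity)
      · rintro ⟨k, n⟩
        rw [norm_mul, norm_pow]
        gcongr
        exact hcoeff k n
    have h1 : ∀ k, HasSum (fun n => (p k).coeff n * z ^ n) ((p k).eval z) := by
      intro k
      rw [eval_eq_sum_range]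
      apply hasSum_sum_of_ne_finset_zero
      intro n hn
      rw [Finset.mem_range, not_lt] at hn
      rw [coeff_eq_zero_of_natDegree_lt (by omega), zero_mul]
    have h2 := hs2.hasSum.prod_fiberwise h1
    have h3 : ∑' q : ℕ × ℕ, (p q.1).coeff q.2 * z ^ q.2 = ∑' n, a n * z ^ n := by
      have hs3 : Summable (fun q : ℕ × ℕ => (p q.2).coeff q.1 * z ^ q.1) :=
        (Equiv.prodComm ℕ ℕ).summable_iff.2 hs2
      rw [← (Equiv.prodComm ℕ ℕ).tsum_eq (fun q : ℕ × ℕ => (p q.1).coeff q.2 * z ^ q.2)]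
      simp only [Equiv.prodComm_apply, Prod.fst_swap, Prod.snd_swap]
      rw [Summable.tsum_prod hs3]
      refine tsum_congr (fun n => ?_)
      rw [ha]
      change ∑' c, (p c).coeff n * z ^ n = _
      rw [tsum_mul_right]
    rw [h3] at h2
    exact h2
  have hSsum : ∀ k, ∀ z : ℂ, (S k).eval z = ∑ i ∈ Finset.range k, (p i).eval z := by
    intro k z
    induction k with
    | zero => simp [hS0]
    | succ k ih => rw [hSs, eval_add, ih, Finset.sum_range_succ]
  -- estimate on a good point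
  have hest : ∀ (x : 𝕋) (k : ℕ), x ∉ E k → x ∉ E (k + 1) →
      ∀ r : ℝ, ρ (k + 1) ≤ r → r < ρ (k + 2) →
      ‖(∑' n, a n * ((r : ℂ) * e x) ^ n) - G (k + 1) x‖ ≤
        7 * (1 / 2 : ℝ) ^ (k + 1) + 3 * (1 / ((k : ℝ) + 2)) := by
    intro x k hx hx' r hr hr'
    have hr0 : 0 ≤ r := (hρnn (k + 1)).trans hr
    have hr1 : r < 1 := hr'.trans (hρlt (k + 2))
    have hzn : ‖(r : ℂ) * e x‖ = r := by
      rw [norm_mul, norm_e, mul_one, Complex.norm_real, Real.norm_of_nonneg hr0]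
    set z := (r : ℂ) * e x with hz
    have hfz := hf z (by rw [hzn]; exact hr1)
    have hsum := hfz.summable
    have h1 : (∑' n, a n * z ^ n) = (S (k + 1)).eval z + ((p (k + 1)).eval z +
        ∑' i, (p (i + (k + 2))).eval z) := by
      rw [← hfz.tsum_eq, ← hsum.sum_add_tsum_nat_add (k + 2), Finset.sum_range_succ, hSsum (k + 1) z, add_assoc]
    have h2 : ‖(S (k + 1)).eval z - (S (k + 1)).eval (e x)‖ ≤ (1 / 2 : ℝ) ^ (k + 1) :=
      hPr k x r hr hr1.le
    have h3 : ‖(S (k + 1)).eval (e x) - G (k + 1) x‖ ≤ (1 / 2 : ℝ) ^ (k + 1) :=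
      (hPx k x hx).1
    have h4 : ‖(p (k + 1)).eval z‖ ≤ 3 * ‖(G (k + 2) x : ℂ) - (S (k + 1)).eval (e x)‖
        + (1 / 2 : ℝ) ^ (k + 2) := (hPx (k + 1) x hx').2 r hr0 hr1.le
    have h5 : ‖(G (k + 2) x : ℂ) - (S (k + 1)).eval (e x)‖ ≤ 1 / ((k : ℝ) + 2) + (1 / 2 : ℝ) ^ (k + 1) := by
      have e1 : (G (k + 2) x : ℂ) - (S (k + 1)).eval (e x) =
          ((G (k + 2) x - G (k + 1) x : ℝ) : ℂ) - ((S (k + 1)).eval (e x) - G (k + 1) x) := by
        push_cast; ring
      rw [e1]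
      refine (norm_sub_le _ _).trans ?_
      rw [Complex.norm_real, Real.norm_eq_abs]
      have := hinc (k + 1) x
      push_cast at this
      have e2 : (k : ℝ) + 1 + 1 = k + 2 := by ring
      rw [e2] at this
      linarith
    have h6 : ‖∑' i, (p (i + (k + 2))).eval z‖ ≤ (1 / 2 : ℝ) ^ (k + 1) := by
      have hb : ∀ i, ‖(p (i + (k + 2))).eval z‖ ≤ (1 / 2 : ℝ) ^ (k + 1) * (1 / 2) ^ (i + 1) := by
        intro i
        have : ‖(p (i + (k + 2))).eval z‖ ≤ (1 / 2 : ℝ) ^ (i + (k + 2) + 1) := by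
          apply hPs (i + (k + 2))
          rw [hzn]
          exact hr'.le.trans (hρmono (by omega))
        refine this.trans ?_
        rw [← pow_add]
        apply pow_le_pow_of_le_one (by norm_num) (by norm_num) (by omega)
      have := tsum_of_norm_bounded (hgeo.mul_left ((1 / 2 : ℝ) ^ (k + 1))).hasSum hb
      rwa [tsum_mul_left, hgeo1, mul_one] at this
    rw [h1]
    have e3 : (S (k + 1)).eval z + ((p (k + 1)).eval z + ∑' i, (p (i + (k + 2))).eval z)
        - (G (k + 1) x : ℂ) = ((S (k + 1)).eval z - (S (k + 1)).eval (e x)) +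
        ((S (k + 1)).eval (e x) - G (k + 1) x) + ((p (k + 1)).eval z +
        ∑' i, (p (i + (k + 2))).eval z) := by ring
    rw [e3]
    have h7 := norm_add₃_le (a := ((S (k + 1)).eval z - (S (k + 1)).eval (e x)))
      (b := ((S (k + 1)).eval (e x) - G (k + 1) x)) (c := ((p (k + 1)).eval z +
        ∑' i, (p (i + (k + 2))).eval z))
    have h8 := norm_add_le ((p (k + 1)).eval z) (∑' i, (p (i + (k + 2))).eval z)
    have h9 : (1 / 2 : ℝ) ^ (k + 2) ≤ (1 / 2 : ℝ) ^ (k + 1) / 1 := by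
      rw [div_one]
      apply pow_le_pow_of_le_one (by norm_num) (by norm_num) (by omega)
    have h10 : (1 / 2 : ℝ) ^ (k + 2) = (1 / 2 : ℝ) ^ (k + 1) / 2 := by rw [pow_succ]; ring
    linarith
  -- Borel-Cantelli
  have hBC : ∑' k, μ (E k) ≠ ⊤ := by
    refine ne_top_of_le_ne_top ?_ (ENNReal.tsum_le_tsum hPE)
    rw [← ENNReal.ofReal_tsum_of_nonneg (fun _ => by positivity) hgeo]
    exact ENNReal.ofReal_ne_top
  filter_upwards [ae_eventually_notMem hBC] with x hx η hη K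
  obtain ⟨K1, hK1⟩ := eventually_atTop.1 hx
  have hlim : Tendsto (fun k : ℕ => 7 * (1 / 2 : ℝ) ^ (k + 1) + 3 * (1 / ((k : ℝ) + 2))) atTop (𝓝 0) := by
    have t1 : Tendsto (fun k : ℕ => (1 / 2 : ℝ) ^ (k + 1)) atTop (𝓝 0) :=
      (tendsto_add_atTop_iff_nat 1).2 (tendsto_pow_atTop_nhds_zero_of_lt_one (by norm_num) (by norm_num))
    have t2 : Tendsto (fun k : ℕ => 1 / ((k : ℝ) + 2)) atTop (𝓝 0) := by
      have := (tendsto_add_atTop_iff_nat 1).2 (tendsto_one_div_add_atTop_nhds_zero_nat (𝕜 := ℝ))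
      refine this.congr (fun k => ?_)
      push_cast; ring
    have := (t1.const_mul 7).add (t2.const_mul 3)
    simpa using this
  obtain ⟨K2, hK2⟩ := eventually_atTop.1 (hlim.eventually (ge_mem_nhds hη))
  set K3 := max K (max K1 K2) with hK3
  refine ⟨ρ (K3 + 1), hρlt (K3 + 1), fun r hr hr1 => ?_⟩
  -- find the index
  have hex : ∃ k, r < ρ (k + 2) := by
    have t1 : Tendsto (fun k : ℕ => 1 - (1 / 2 : ℝ) ^ (k + 2)) atTop (𝓝 (1 - 0)) :=
      tendsto_const_nhds.sub ((tendsto_add_atTop_iff_nat 2).2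
        (tendsto_pow_atTop_nhds_zero_of_lt_one (by norm_num) (by norm_num)))
    rw [sub_zero] at t1
    obtain ⟨k, hk⟩ := (t1.eventually (lt_mem_nhds hr1)).exists
    exact ⟨k, lt_of_lt_of_le hk (hρge (k + 1))⟩
  set k := Nat.find hex with hk
  have hk1 : r < ρ (k + 2) := Nat.find_spec hex
  have hkK : K3 ≤ k := by
    by_contra h
    push Not at h
    have : ρ (k + 2) ≤ ρ (K3 + 1) := hρmono (by omega)
    linarith
  have hk2 : ρ (k + 1) ≤ r := by
    rcases Nat.eq_zero_or_pos k with h | h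
    · have : K3 = 0 := by omega
      rw [h]
      rw [this] at hr
      exact hr
    · have := Nat.find_min hex (m := k - 1) (by omega)
      rw [not_lt] at this
      have e1 : k - 1 + 2 = k + 1 := by omega
      rwa [e1] at this
  have hK3a : K ≤ K3 := le_max_left _ _
  have hK3b : K1 ≤ K3 := (le_max_left _ _).trans (le_max_right _ _)
  have hK3c : K2 ≤ K3 := (le_max_right _ _).trans (le_max_right _ _)
  refine ⟨k + 1, by omega, ?_⟩
  exact (hest x k (hK1 k (by omega)) (hK1 (k + 1) (by omega)) r hk2 hk1).trans (hK2 k (by omega))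

end Iteration

section Final

/-- The radial limit condition at the boundary point `z`, for a prescribed value `y` in the
extended real line.  A finite value is the ordinary limit in `ℂ`.  For an infinite value every
customary reading is required at once: the modulus tends to infinity and the argument direction
tends to `1` (respectively `-1`), the real part tends to `+∞` (respectively `-∞`), and the
imaginary part tends to `0`. -/
def HasRadialLimit (f : ℂ → ℂ) (z : ℂ) (y : EReal) : Prop :=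
  (∀ t : ℝ, y = (t : EReal) →
    Tendsto (fun r : ℝ => f ((r : ℂ) * z)) (𝓝[<] 1) (𝓝 (t : ℂ))) ∧
  (y = ⊤ →
    Tendsto (fun r : ℝ => ‖f ((r : ℂ) * z)‖) (𝓝[<] 1) atTop ∧
    Tendsto (fun r : ℝ => f ((r : ℂ) * z) / (‖f ((r : ℂ) * z)‖ : ℂ)) (𝓝[<] 1) (𝓝 1) ∧
    Tendsto (fun r : ℝ => (f ((r : ℂ) * z)).re) (𝓝[<] 1) atTop ∧
    Tendsto (fun r : ℝ => (f ((r : ℂ) * z)).im) (𝓝[<] 1) (𝓝 0)) ∧
  (y = ⊥ →
    Tendsto (fun r : ℝ => ‖f ((r : ℂ) * z)‖) (𝓝[<] 1) atTop ∧
    Tendsto (fun r : ℝ => f ((r : ℂ) * z) / (‖f ((r : ℂ) * z)‖ : ℂ)) (𝓝[<] 1) (𝓝 (-1)) ∧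
    Tendsto (fun r : ℝ => (f ((r : ℂ) * z)).re) (𝓝[<] 1) atBot ∧
    Tendsto (fun r : ℝ => (f ((r : ℂ) * z)).im) (𝓝[<] 1) (𝓝 0))

/-- truncation levels -/
noncomputable def lev (k : ℕ) : ℝ := ∑ j ∈ Finset.range k, 1 / ((j : ℝ) + 1)

lemma lev_nonneg (k : ℕ) : 0 ≤ lev k := Finset.sum_nonneg (fun _ _ => by positivity)

lemma lev_succ (k : ℕ) : lev (k + 1) = lev k + 1 / ((k : ℝ) + 1) := by
  rw [lev, Finset.sum_range_succ, ← lev]

lemma lev_tendsto : Tendsto lev atTop atTop := Real.tendsto_sum_range_one_div_nat_succ_atTop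

/-- truncation of an extended real -/
noncomputable def trunc (k : ℕ) (y : EReal) : ℝ :=
  (max ((-lev k : ℝ) : EReal) (min ((lev k : ℝ) : EReal) y)).toReal

lemma trunc_measurable (k : ℕ) : Measurable (trunc k) := by
  unfold trunc
  exact (measurable_const.max (measurable_const.min measurable_id)).ereal_toReal

lemma trunc_coe (k : ℕ) (t : ℝ) : trunc k (t : EReal) = max (-lev k) (min (lev k) t) := by
  unfold trunc
  have : (max ((-lev k : ℝ) : EReal) (min ((lev k : ℝ) : EReal) (t : EReal))) =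
      ((max (-lev k) (min (lev k) t) : ℝ) : EReal) := by
    rw [EReal.coe_strictMono.monotone.map_max, EReal.coe_strictMono.monotone.map_min]
  rw [this, EReal.toReal_coe]

lemma trunc_top (k : ℕ) : trunc k ⊤ = lev k := by
  unfold trunc
  rw [min_eq_left le_top]
  have h := lev_nonneg k
  have : ((-lev k : ℝ) : EReal) ≤ ((lev k : ℝ) : EReal) := by
    rw [EReal.coe_le_coe_iff]; linarith
  rw [max_eq_right this, EReal.toReal_coe]

lemma trunc_bot (k : ℕ) : trunc k ⊥ = -lev k := by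
  unfold trunc
  rw [min_eq_right bot_le, max_eq_left bot_le, EReal.toReal_coe]

lemma trunc_bound (k : ℕ) (y : EReal) : |trunc k y| ≤ lev k := by
  have h := lev_nonneg k
  induction y with
  | bot => rw [trunc_bot, abs_neg, abs_of_nonneg h]
  | coe t =>
    rw [trunc_coe, abs_le]
    exact ⟨le_max_left _ _, max_le (by linarith) (min_le_left _ _)⟩
  | top => rw [trunc_top, abs_of_nonneg h]

lemma trunc_inc (k : ℕ) (y : EReal) : |trunc (k + 1) y - trunc k y| ≤ 1 / ((k : ℝ) + 1) := by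
  have h := lev_nonneg k
  have h1 := lev_succ k
  have h2 : (0 : ℝ) < 1 / ((k : ℝ) + 1) := by positivity
  induction y with
  | bot =>
    rw [trunc_bot, trunc_bot, h1]
    rw [abs_le]; constructor <;> linarith
  | coe t =>
    rw [trunc_coe, trunc_coe, h1]
    set c := lev k
    set d := 1 / ((k : ℝ) + 1)
    rw [abs_le]
    rcases max_cases (-(c + d)) (min (c + d) t) with ⟨ha, hb⟩ | ⟨ha, hb⟩ <;>
    rcases max_cases (-c) (min c t) with ⟨hc, hd⟩ | ⟨hc, hd⟩ <;>
    rcases min_cases (c + d) t with ⟨he, hf⟩ | ⟨he, hf⟩ <;>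
    rcases min_cases c t with ⟨hg, hi⟩ | ⟨hg, hi⟩ <;>
    constructor <;> linarith
  | top =>
    rw [trunc_top, trunc_top, h1]
    rw [abs_le]; constructor <;> linarith

/-- The convergence mode obtained from the construction. -/
def Follows (φ : ℝ → ℂ) (G : ℕ → ℝ) : Prop :=
  ∀ η > 0, ∀ K : ℕ, ∃ R < 1, ∀ r : ℝ, R ≤ r → r < 1 → ∃ k ≥ K, ‖φ r - G k‖ ≤ η

lemma eventually_of_follows {φ : ℝ → ℂ} {G : ℕ → ℝ} (h : Follows φ G) {η : ℝ} (hη : 0 < η)
    (K : ℕ) : ∀ᶠ r in 𝓝[<] (1 : ℝ), ∃ k ≥ K, ‖φ r - G k‖ ≤ η := by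
  obtain ⟨R, hR, hr⟩ := h η hη K
  filter_upwards [Ioo_mem_nhdsLT hR] with r hr'
  exact hr r hr'.1.le hr'.2

lemma follows_real {φ : ℝ → ℂ} {G : ℕ → ℝ} (h : Follows φ G) {t : ℝ}
    (hG : Tendsto G atTop (𝓝 t)) : Tendsto φ (𝓝[<] 1) (𝓝 (t : ℂ)) := by
  rw [Metric.tendsto_nhds]
  intro ε hε
  obtain ⟨K, hK⟩ := Metric.tendsto_atTop.1 hG (ε / 2) (by positivity)
  filter_upwards [eventually_of_follows h (show 0 < ε / 3 by positivity) K] with r hr
  obtain ⟨k, hk, hle⟩ := hr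
  have h1 := hK k hk
  rw [Real.dist_eq] at h1
  rw [dist_eq_norm]
  have h2 : φ r - (t : ℂ) = (φ r - G k) + ((G k - t : ℝ) : ℂ) := by push_cast; ring
  rw [h2]
  refine lt_of_le_of_lt (norm_add_le _ _) ?_
  rw [Complex.norm_real, Real.norm_eq_abs]
  linarith

lemma follows_im {φ : ℝ → ℂ} {G : ℕ → ℝ} (h : Follows φ G) :
    Tendsto (fun r => (φ r).im) (𝓝[<] 1) (𝓝 0) := by
  rw [Metric.tendsto_nhds]
  intro ε hε
  filter_upwards [eventually_of_follows h (show 0 < ε / 2 by positivity) 0] with r hr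
  obtain ⟨k, -, hle⟩ := hr
  have h1 : (φ r).im = (φ r - G k).im := by simp
  rw [dist_zero_right, h1, Real.norm_eq_abs]
  exact lt_of_le_of_lt ((Complex.abs_im_le_norm _).trans hle) (by linarith)

lemma follows_re_top {φ : ℝ → ℂ} {G : ℕ → ℝ} (h : Follows φ G) (hG : Tendsto G atTop atTop) :
    Tendsto (fun r => (φ r).re) (𝓝[<] 1) atTop := by
  rw [tendsto_atTop]
  intro b
  obtain ⟨K, hK⟩ := eventually_atTop.1 (tendsto_atTop.1 hG (b + 1))
  filter_upwards [eventually_of_follows h one_pos K] with r hr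
  obtain ⟨k, hk, hle⟩ := hr
  have h1 : (φ r).re = (φ r - G k).re + G k := by simp
  have h2 := (abs_le.1 (Complex.abs_re_le_norm (φ r - G k))).1
  have h3 := hK k hk
  linarith

lemma top_package {φ : ℝ → ℂ} (hre : Tendsto (fun r => (φ r).re) (𝓝[<] 1) atTop)
    (him : Tendsto (fun r => (φ r).im) (𝓝[<] 1) (𝓝 0)) :
    Tendsto (fun r => ‖φ r‖) (𝓝[<] 1) atTop ∧
    Tendsto (fun r => φ r / (‖φ r‖ : ℂ)) (𝓝[<] 1) (𝓝 1) := by
  have h1 : Tendsto (fun r => ‖φ r‖) (𝓝[<] 1) atTop :=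
    tendsto_atTop_mono (fun r => (le_abs_self _).trans (Complex.abs_re_le_norm _)) hre
  refine ⟨h1, ?_⟩
  have h2 : Tendsto (fun r => (φ r).im / ‖φ r‖) (𝓝[<] 1) (𝓝 0) := him.div_atTop h1
  have h3 : Tendsto (fun r => (φ r).re / ‖φ r‖) (𝓝[<] 1) (𝓝 1) := by
    have h4 : Tendsto (fun r => Real.sqrt (1 - ((φ r).im / ‖φ r‖) ^ 2)) (𝓝[<] 1)
        (𝓝 (Real.sqrt (1 - 0 ^ 2))) := by
      have : Continuous (fun x : ℝ => Real.sqrt (1 - x ^ 2)) := by fun_prop
      exact (this.tendsto 0).comp h2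
    have e1 : Real.sqrt (1 - (0 : ℝ) ^ 2) = 1 := by norm_num
    rw [e1] at h4
    refine h4.congr' ?_
    filter_upwards [tendsto_atTop.1 hre 1] with r hr
    have hn : 0 < ‖φ r‖ := lt_of_lt_of_le (by linarith) (Complex.re_le_norm (φ r))
    have h5 : 1 - ((φ r).im / ‖φ r‖) ^ 2 = ((φ r).re / ‖φ r‖) ^ 2 := by
      have := Complex.sq_norm (φ r)
      rw [Complex.normSq_apply] at this
      field_simp
      linarith
    rw [h5, Real.sqrt_sq (by positivity)]
  have h6 : Tendsto (fun r => (((φ r).re / ‖φ r‖ : ℝ) : ℂ) + (((φ r).im / ‖φ r‖ : ℝ) : ℂ) * Complex.I)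
      (𝓝[<] 1) (𝓝 (((1 : ℝ) : ℂ) + ((0 : ℝ) : ℂ) * Complex.I)) :=
    ((Complex.continuous_ofReal.tendsto 1).comp h3).add
      (((Complex.continuous_ofReal.tendsto 0).comp h2).mul_const _)
  have e2 : (((1 : ℝ) : ℂ) + ((0 : ℝ) : ℂ) * Complex.I) = 1 := by simp
  rw [e2] at h6
  refine h6.congr (fun r => ?_)
  have h7 := Complex.re_add_im (φ r)
  push_cast
  calc ((φ r).re : ℂ) / ‖φ r‖ + (φ r).im / ‖φ r‖ * Complex.I
      = (((φ r).re : ℂ) + (φ r).im * Complex.I) / ‖φ r‖ := by ring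
    _ = φ r / ‖φ r‖ := by rw [h7]

lemma follows_radial {a : ℕ → ℂ} {z : ℂ} {y : EReal}
    (h : Follows (fun r : ℝ => ∑' n, a n * ((r : ℂ) * z) ^ n) (fun k => trunc k y)) :
    HasRadialLimit (fun w => ∑' n, a n * w ^ n) z y := by
  refine ⟨?_, ?_, ?_⟩
  · intro t ht
    subst ht
    refine follows_real h ?_
    have : Tendsto (fun _ : ℕ => t) atTop (𝓝 t) := tendsto_const_nhds
    refine this.congr' ?_
    filter_upwards [tendsto_atTop.1 lev_tendsto |t|] with k hk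
    rw [trunc_coe, min_eq_right ((le_abs_self t).trans hk),
      max_eq_right (by linarith [neg_abs_le t])]
  · intro ht
    subst ht
    simp only [trunc_top] at h
    have h1 := follows_re_top h lev_tendsto
    have h2 := follows_im h
    exact ⟨(top_package h1 h2).1, (top_package h1 h2).2, h1, h2⟩
  · intro ht
    subst ht
    simp only [trunc_bot] at h
    have h' : Follows (fun r : ℝ => -(∑' n, a n * ((r : ℂ) * z) ^ n)) lev := by
      intro η hη K
      obtain ⟨R, hR, hr⟩ := h η hη K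
      refine ⟨R, hR, fun r h1 h2 => ?_⟩
      obtain ⟨k, hk, hle⟩ := hr r h1 h2
      refine ⟨k, hk, le_trans (le_of_eq ?_) hle⟩
      rw [← norm_neg]
      congr 1
      push_cast
      ring
    have h1 := follows_re_top h' lev_tendsto
    have h2 := follows_im h'
    obtain ⟨h3, h4⟩ := top_package h1 h2
    simp only [norm_neg, Complex.neg_re, Complex.neg_im] at h1 h2 h3 h4
    refine ⟨h3, ?_, ?_, ?_⟩
    · have := h4.neg
      refine this.congr (fun r => ?_)
      ring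
    · have := tendsto_neg_atTop_atBot.comp h1
      refine this.congr (fun r => ?_)
      simp
    · have := h2.neg
      simpa using this

/-- **Prescribed radial limits.** For every Borel function `g` on the unit circle with values in
the extended real line there is a function `f`, analytic in the unit disc, with Taylor coefficients
bounded by `1` (and even tending to `0`), whose radial limit is `g(z)` for `H^1`-almost every point
`z` of the unit circle. -/
theorem result (g : Metric.sphere (0 : ℂ) 1 → EReal) (hg : Measurable g) :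
    ∃ (f : ℂ → ℂ) (a : ℕ → ℂ),
      AnalyticOnNhd ℂ f (Metric.ball 0 1) ∧
      (∀ z ∈ Metric.ball (0 : ℂ) 1, HasSum (fun n => a n * z ^ n) (f z)) ∧
      (∀ n, ‖a n‖ ≤ 1) ∧ Tendsto a atTop (𝓝 0) ∧
      Measure.hausdorffMeasure 1
        ((↑) '' {z : Metric.sphere (0 : ℂ) 1 | ¬ HasRadialLimit f z (g z)} : Set ℂ) = 0 := by
  have he : ∀ x : 𝕋, e x ∈ Metric.sphere (0 : ℂ) 1 := fun x => by
    rw [mem_sphere_zero_iff_norm]; exact norm_e x
  set g' : 𝕋 → EReal := fun x => g ⟨e x, he x⟩ with hg'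
  have hg'm : Measurable g' := hg.comp (e_continuous.subtype_mk he).measurable
  obtain ⟨a, ha1, ha0, hae⟩ := main_seq (fun k x => trunc k (g' x))
    (fun k => (trunc_measurable k).comp hg'm) lev (fun k x => trunc_bound k _)
    (fun k x => trunc_inc k _)
  have hsum : ∀ z ∈ Metric.ball (0 : ℂ) 1, HasSum (fun n => a n * z ^ n) (∑' n, a n * z ^ n) := by
    intro z hz
    rw [mem_ball_zero_iff] at hz
    apply Summable.hasSum
    refine Summable.of_norm_bounded (summable_geometric_of_lt_one (norm_nonneg z) hz) (fun n => ?_)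
    rw [norm_mul, norm_pow]
    exact mul_le_of_le_one_left (by positivity) (ha1 n)
  refine ⟨fun z => ∑' n, a n * z ^ n, a, ?_, hsum, ha1, ha0, ?_⟩
  · -- analyticity
    set p : FormalMultilinearSeries ℂ ℂ ℂ := FormalMultilinearSeries.ofScalars ℂ a with hp
    have hr : (1 : ENNReal) ≤ p.radius := by
      have hb : ∀ n, ‖p n‖ * ((1 : NNReal) : ℝ) ^ n ≤ 1 := by
        intro n
        have := FormalMultilinearSeries.ofScalars_norm (E := ℂ) a n
        rw [hp, this]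
        simpa using ha1 n
      have := p.le_radius_of_bound 1 hb
      simpa using this
    have hfp := p.hasFPowerSeriesOnBall (lt_of_lt_of_le one_pos hr)
    have hpe : p.sum = fun z => ∑' n, a n * z ^ n := by
      ext z
      rw [FormalMultilinearSeries.sum]
      refine tsum_congr (fun n => ?_)
      rw [hp, FormalMultilinearSeries.ofScalars_apply_eq, smul_eq_mul]
    rw [hpe] at hfp
    intro z hz
    apply hfp.analyticAt_of_mem
    rw [mem_ball_zero_iff] at hz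
    rw [Metric.mem_eball, edist_zero_right]
    refine lt_of_lt_of_le ?_ hr
    rw [enorm_eq_nnnorm]
    exact_mod_cast hz
  · -- transfer to the Hausdorff measure
    set F : ℝ → ℂ := fun t => e (t : 𝕋) with hF
    have hFe : ∀ t, F t = Circle.exp (2 * Real.pi * t) := by
      intro t
      simp only [hF, e]
      rw [fourier_apply, one_smul, AddCircle.toCircle_apply_mk]
      congr 2
      ring
    have hLip : LipschitzWith (Real.toNNReal (2 * Real.pi)) F := by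
      apply LipschitzWith.of_dist_le_mul
      intro s t
      rw [Real.coe_toNNReal _ (by positivity), dist_eq_norm, Real.dist_eq, hFe, hFe,
        Circle.coe_exp, Circle.coe_exp]
      have h1 : Complex.exp (((2 * Real.pi * s : ℝ) : ℂ) * Complex.I)
          - Complex.exp (((2 * Real.pi * t : ℝ) : ℂ) * Complex.I)
          = Complex.exp (((2 * Real.pi * t : ℝ) : ℂ) * Complex.I) *
            (Complex.exp (Complex.I * ((2 * Real.pi * (s - t) : ℝ) : ℂ)) - 1) := by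
        rw [mul_sub, ← Complex.exp_add, mul_one]
        congr 2
        push_cast; ring
      rw [h1, norm_mul, Complex.norm_exp_ofReal_mul_I, one_mul]
      refine (Real.norm_exp_I_mul_ofReal_sub_one_le).trans (le_of_eq ?_)
      rw [Real.norm_eq_abs, abs_mul, abs_of_pos (by positivity : 0 < 2 * Real.pi)]
    have hgood : ∀ᵐ x ∂μ, HasRadialLimit (fun w => ∑' n, a n * w ^ n) (e x) (g' x) := by
      filter_upwards [hae] with x hx
      exact follows_radial hx
    rw [← μ_volume] at hgood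
    have hmp := AddCircle.measurePreserving_mk (1 : ℝ) 0
    have hgood' := hmp.quasiMeasurePreserving.ae hgood
    set Bd : Set ℝ := {t | t ∈ Set.Ioc (0 : ℝ) (0 + 1) ∧
      ¬ HasRadialLimit (fun w => ∑' n, a n * w ^ n) (e (t : 𝕋)) (g' (t : 𝕋))} with hBd
    have hBd0 : volume Bd = 0 := by
      rw [ae_restrict_iff' measurableSet_Ioc] at hgood'
      have := hgood'
      rw [ae_iff] at this
      convert this using 2
      ext t
      simp [hBd, and_assoc]
    have hsub : ((↑) '' {z : Metric.sphere (0 : ℂ) 1 | ¬ HasRadialLimit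
        (fun w => ∑' n, a n * w ^ n) z (g z)} : Set ℂ) ⊆ F '' Bd := by
      rintro _ ⟨z, hz, rfl⟩
      have hz1 : ‖(z : ℂ)‖ = 1 := mem_sphere_zero_iff_norm.1 z.2
      obtain ⟨x, hx⟩ : ∃ x : 𝕋, e x = z := by
        refine ⟨((Complex.arg z / (2 * Real.pi) : ℝ) : 𝕋), ?_⟩
        have := hFe (Complex.arg z / (2 * Real.pi))
        rw [hF] at this
        simp only at this
        rw [this, mul_div_cancel₀ _ (by positivity), Circle.coe_exp]
        have h2 := Complex.norm_mul_exp_arg_mul_I (z : ℂ)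
        rw [hz1] at h2
        simpa using h2
      have hr := rep_mem x
      have hrx : ((rep x : ℝ) : 𝕋) = x := AddCircle.coe_equivIoc
      refine ⟨rep x, ⟨⟨hr.1, by simpa using hr.2⟩, ?_⟩, ?_⟩
      · rw [hrx]
        have h3 : g' x = g z := by
          simp only [hg']
          congr 1
          exact Subtype.ext hx
        rw [h3, hx]
        exact hz
      · simp only [hF]
        rw [hrx, hx]
    refine measure_mono_null hsub ?_
    have h1 := hLip.hausdorffMeasure_image_le (d := 1) zero_le_one Bd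
    rw [hausdorffMeasure_real, hBd0, mul_zero] at h1
    exact le_antisymm h1 bot_le

end Final

end Pool.Agent.Results.MP_2e8a17_an.RadialLimits
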